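import Pool.Agent.H878R5.MF.Link

/-!
The Cheeger deformation of the momentum form of the curvature: adding `c |M|²` to the cometric.
-/

set_option autoImplicit false
set_option synthInstance.maxHeartbeats 400000
set_option maxHeartbeats 4000000

noncomputable section

namespace Pool.Agent.Y490.WH

open HopfPP Pool.Agent.H878R5

theorem smul_vec (r : ℝ) (a : V6 ℝ) : r • a = (r • a.1, r • a.2) := rfl

/-- the `Γ`-part -/
theorem PPg_Gamma {K : V6 ℝ → V6 ℝ} {T : V ℝ → V6 ℝ → V6 ℝ}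
    (ka : ∀ u v, K (u - v) = K u - K v)
    (kk : ∀ u v, dt6 u (K v) = dt6 v (K u)) (x : V ℝ) (α β Γ s : V6 ℝ) :
    PPg K T x α β (Γ - s) = PPg K T x α β Γ +
      3 * (dt6 s (K s) - 2 * dt6 s (K Γ) + 2 * dt6 s ((T (cx (K α).1 x) β - T (cx (K β).1 x) α -
        cx6 (K α) (K β)) + K (cx6 α (K β) - cx6 β (K α)))) := by
  rw [PPg, PPg, ka Γ s]
  have h1 := kk Γ s
  simp only [dt6_sub_left, dt6_sub_right]
  rw [h1]
  ring

/-- **Cheeger deformation.** -/
theorem cheeger {K : V6 ℝ → V6 ℝ} {T : V ℝ → V6 ℝ → V6 ℝ}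
    (ka : ∀ u v, K (u + v) = K u + K v) (ks : ∀ (r : ℝ) u, K (r • u) = r • K u)
    (kk : ∀ u v, dt6 u (K v) = dt6 v (K u)) (x : V ℝ) (α β Γ : V6 ℝ) (c : ℝ) :
    PPg (fun v => K v + c • ((0, v.2) : V6 ℝ)) T x α β Γ =
      PPg K T x α β (Γ - (2 * c) • ((0, cx α.2 β.2) : V6 ℝ)) +
        3 * c * dt (Γ.2 - c • cx α.2 β.2) (Γ.2 - c • cx α.2 β.2) +
        c ^ 3 * dt (cx α.2 β.2) (cx α.2 β.2) := by
  have ksub : ∀ u v, K (u - v) = K u - K v := fun u v => by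
    have h : u - v = u + (-1 : ℝ) • v := by rw [neg_one_smul, sub_eq_add_neg]
    rw [h, ka, ks, neg_one_smul, sub_eq_add_neg]
  obtain ⟨m, hm⟩ : ∃ m : V6 ℝ, m = (0, cx α.2 β.2) := ⟨_, rfl⟩
  obtain ⟨δ, hδ⟩ : ∃ δ, δ = cx6 α (K β) - cx6 β (K α) := ⟨_, rfl⟩
  rw [← hm, PPg_Gamma ksub kk]
  have d1 : cx6 α (K β + c • ((0, β.2) : V6 ℝ)) - cx6 β (K α + c • ((0, α.2) : V6 ℝ)) =
      δ + (2 * c) • m := by
    rw [hδ, hm]
    refine Prod.ext ?_ ?_
    · funext i; fin_cases i <;> simp [cx6, cx]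
    · funext i; fin_cases i <;> simp [cx6, cx] <;> ring
  have f1 : ∀ u v : V6 ℝ, (u + c • ((0, v.2) : V6 ℝ)).1 = u.1 := fun u v => by
    rw [Prod.fst_add, Prod.smul_fst, smul_zero, add_zero]
  have s1 : ∀ p q : V6 ℝ, sS (fun v => K v + c • ((0, v.2) : V6 ℝ)) T x p q = sS K T x p q := by
    intro p q
    rw [sS, sS]
    refine Prod.ext ?_ ?_
    · funext i; fin_cases i <;> simp [cx6, cx]
    · funext i; fin_cases i <;> simp [cx6, cx] <;> ring
  rw [PPg, PPg]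
  simp only [f1, s1, d1, ← hδ]
  have kΓ : dt6 Γ (K m) = dt6 m (K Γ) := kk _ _
  have kδ : dt6 δ (K m) = dt6 m (K δ) := kk _ _
  have hSab : (sS K T x α β).2 = cx α.2 (K β).2 + cx β.2 (K α).2 := by
    rw [sS, Prod.snd_add, Prod.snd_add, zero_add]; rfl
  have hSaa : (sS K T x α α).2 = cx α.2 (K α).2 + cx α.2 (K α).2 := by
    rw [sS, Prod.snd_add, Prod.snd_add, zero_add]; rfl
  have hSbb : (sS K T x β β).2 = cx β.2 (K β).2 + cx β.2 (K β).2 := by
    rw [sS, Prod.snd_add, Prod.snd_add, zero_add]; rfl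
  have e1 : ∀ (u : V6 ℝ) (v : V ℝ), dt6 u (c • ((0, v) : V6 ℝ)) = c * dt u.2 v := fun u v => by
    rw [dt6_smul_right]
    simp [dt6, dt]
  simp only [dt6_add_right, e1, hSab, hSaa, hSbb, ka, ks]
  -- generalize the unchanged scalars
  generalize dt6 β (T (cx (K α).1 (cx (K α).1 x)) β) = q1
  generalize dt6 β (T (cx (T (cx (K α).1 x) α).1 x) β) = q2
  generalize dt6 α (T (cx (K β).1 (cx (K β).1 x)) α) = q3
  generalize dt6 α (T (cx (T (cx (K β).1 x) β).1 x) α) = q4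
  generalize dt6 α (T (cx (K β).1 (cx (K α).1 x) + cx (K α).1 (cx (K β).1 x)) β) = q5
  generalize dt6 α (T (cx ((T (cx (K α).1 x) β).1 + (T (cx (K β).1 x) α).1) x) β) = q6
  generalize dt6 (sS K T x α β) (K (sS K T x α β)) = q7
  generalize dt6 (sS K T x α α) (K (sS K T x β β)) = q8
  generalize hA : T (cx (K α).1 x) α = A
  generalize hB : T (cx (K α).1 x) β = B
  generalize hC : T (cx (K β).1 x) α = C
  generalize hD : T (cx (K β).1 x) β = D
  generalize hKm : K m = Km at *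
  generalize hKd : K δ = Kd at *
  generalize hKG : K Γ = KG at *
  generalize hu : K α = u at *
  generalize hv : K β = v at *
  clear hA hB hC hD hKm hKd hKG hu hv ka ks kk ksub s1 f1 e1 hSab hSaa hSbb d1
  subst hm hδ
  simp only [dt6, dt, cx6, cx, Prod.fst_add, Prod.snd_add, Prod.fst_sub, Prod.snd_sub,
    Prod.smul_fst, Prod.smul_snd, Pi.add_apply, Pi.sub_apply, Pi.smul_apply, smul_eq_mul,
    Matrix.cons_val_zero, Matrix.cons_val_one, Matrix.cons_val, Pi.zero_apply] at kΓ kδ ⊢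
  linear_combination (6 * c) * kδ - (12 * c) * kΓ
end Pool.Agent.Y490.WH
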