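import Pool.Agent.Y490.WH.Dist

/-!
The zero section `S² × {0}` is totally geodesic and totally convex.
-/

open Bundle Manifold ContDiff ContinuousLinearMap Filter VectorField Metric Set MeasureTheory
open scoped Topology RealInnerProductSpace ENNReal

set_option autoImplicit false
set_option synthInstance.maxHeartbeats 400000
set_option maxHeartbeats 4000000
set_option linter.unusedSectionVars false

noncomputable section

namespace Pool.Agent.Y490.WH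

open Pool.Agent.H821R2 Pool.Agent.H821R3 H907H Pool.Agent.H893R5.HO HopfPP Pool.Agent.H878R5

section general

variable {E : Type*} [NormedAddCommGroup E] [NormedSpace ℝ E] [FiniteDimensional ℝ E]
  {H : Type*} [TopologicalSpace H] {I : ModelWithCorners ℝ E H}
  {M : Type*} [TopologicalSpace M] [ChartedSpace H M] [IsManifold I ∞ M]
  {g : ContMDiffRiemannianMetric I ∞ E (fun x : M => TangentSpace I x)}
  {cov : CovariantDerivative I E (TangentSpace I : M → Type _)}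

theorem hess_grad (h : IsLeviCivita g cov) {Y X : Π x : M, TangentSpace I x} (hY : SmV Y)
    (hX : SmV X) {f : M → ℝ} (hYf : IsGrad g Y f) (p : M) :
    g.inner p (cov Y p (X p)) (X p) = der X (der X f) p - d% f p (cov X p (X p)) := by
  have e1 := h.metric hX hY hX p
  have f1 : (fun y => g.inner y (Y y) (X y)) = der X f := by
    ext y; exact hYf y (X y)
  have f2 := hYf p (cov X p (X p))
  rw [f1, f2] at e1
  have e2 : der X (der X f) p = d% (der X f) p (X p) := rfl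
  rw [e2, e1]
  ring

theorem curve_der {c : ℝ → M} {t : ℝ} {v : TangentSpace I (c t)}
    (hc : HasMFDerivAt 𝓘(ℝ, ℝ) I c t ((1 : ℝ →L[ℝ] ℝ).smulRight v)) {F : M → ℝ} (hF : Sm I F) :
    HasDerivAt (fun s => F (c s)) (d% F (c t) v) t := by
  obtain ⟨T, hT⟩ : ∃ T : ℝ →L[ℝ] ℝ, T = (mfderiv I 𝓘(ℝ, ℝ) F (c t)).comp
    ((1 : ℝ →L[ℝ] ℝ).smulRight v) := ⟨_, rfl⟩
  have h1 : HasMFDerivAt 𝓘(ℝ, ℝ) 𝓘(ℝ, ℝ) (fun s => F (c s)) t T := by
    rw [hT]
    exact (hF.mdiff (c t)).hasMFDerivAt.comp t hc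
  have h2 : HasFDerivAt (fun s => F (c s)) T t := hasMFDerivAt_iff_hasFDerivAt.1 h1
  have h3 : HasDerivAt (fun s => F (c s)) (T 1) t := h2.hasDerivAt
  have h4 : T 1 = d% F (c t) v := by
    rw [hT]
    change mfderiv I 𝓘(ℝ, ℝ) F (c t) (((1 : ℝ →L[ℝ] ℝ) (1 : ℝ)) • v) = _
    rw [one_apply_eq_self, one_smul]
    rfl
  rw [← h4]
  exact h3

end general

variable {D : Dat ℝ}
  {g : ContMDiffRiemannianMetric ((𝓡 2).prod (𝓡 3)) ∞
    (EuclideanSpace ℝ (Fin 2) × EuclideanSpace ℝ (Fin 3))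
    (fun x : S2 × R3 => TangentSpace ((𝓡 2).prod (𝓡 3)) x)}
  {cov : CovariantDerivative ((𝓡 2).prod (𝓡 3))
    (EuclideanSpace ℝ (Fin 2) × EuclideanSpace ℝ (Fin 3))
    (TangentSpace ((𝓡 2).prod (𝓡 3)) : S2 × R3 → Type _)}

theorem dFF (hD : Good D) (a b z : R3 × R3) (η : R3) :
    fderiv ℝ (XE.FF (WED D) a b) z ((0, η) : R3 × R3) =
      dt η.ofLp (gv (K0D D) (TD D) a b z) := by
  rw [WED, fderiv_FF, YE.fderiv_F, F1_vert _ _ (K0D_symm hD.symW hD.symQ) (TD_symm D)]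

/-- `|w|²` -/
def G0 (z : R3 × R3) : ℝ := ⟪z.2, z.2⟫

theorem G0_smooth : ContDiff ℝ ∞ G0 := contDiff_snd.inner ℝ contDiff_snd

theorem G0_fderiv (z v : R3 × R3) : fderiv ℝ G0 z v = 2 * ⟪z.2, v.2⟫ := by
  have h1 : HasFDerivAt (fun z : R3 × R3 => z.2) (ContinuousLinearMap.snd ℝ R3 R3) z :=
    hasFDerivAt_snd
  have h2 : HasFDerivAt G0 _ z := h1.inner ℝ h1
  rw [h2.fderiv]
  simp [fderivInnerCLM_apply]
  rw [real_inner_comm v.2 z.2]
  ring

/-- `|w|²` on `S² × ℝ³` -/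
def ff (p : S2 × R3) : ℝ := G0 (XE.j p)

theorem ff_smooth : Sm ((𝓡 2).prod (𝓡 3)) ff := XE.smooth_comp G0_smooth

theorem ff_eq (p : S2 × R3) : ff p = ‖p.2‖ ^ 2 := real_inner_self_eq_norm_sq p.2

theorem exists_rad (hg : XE.Dual g (WED D)) :
    ∃ Y : Π p : S2 × R3, TangentSpace ((𝓡 2).prod (𝓡 3)) p, SmV Y ∧
      (∀ p, XE.d p (Y p) = ((0, (2 : ℝ) • p.2) : R3 × R3)) ∧ IsGrad g Y ff := by
  have hF : ContMDiff ((𝓡 2).prod (𝓡 3)) 𝓘(ℝ, R3 × R3) ∞
      (fun p : S2 × R3 => ((0, (2 : ℝ) • p.2) : R3 × R3)) := by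
    have h1 : ContDiff ℝ ∞ (fun z : R3 × R3 => ((0, (2 : ℝ) • z.2) : R3 × R3)) :=
      contDiff_const.prodMk (contDiff_snd.const_smul (2 : ℝ))
    exact XE.smooth_comp h1
  obtain ⟨Y, hY, hYd⟩ := XE.exists_field hF (by
    intro p
    rw [XE_P]
    refine Prod.ext ?_ rfl
    simp)
  refine ⟨Y, hY, hYd, fun p z => ?_⟩
  have e1 : Y p = vv p ((2 : ℝ) • p.2) := XE.d_inj p (by rw [hYd, d_vv])
  rw [e1, inner_radial hg]
  have e2 : mvfderiv ((𝓡 2).prod (𝓡 3)) ff p z = fderiv ℝ G0 (XE.j p) (XE.d p z) :=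
    XE.d_comp p (G0_smooth.differentiable (by simp) _) z
  rw [e2, G0_fderiv]
  rfl

theorem W_snd (D : Dat ℝ) (z a : R3 × R3) :
    (WED D z a).2 = cr3 (KK D (pj z) (YE.J z a)).2 z.2 + a.2 := rfl

/-- The Hessian of `|w|²` is nonnegative. -/
theorem hess_rad (hD : Good D) (hg : XE.Dual g (WED D)) (h : IsLeviCivita g cov)
    {X : Π p : S2 × R3, TangentSpace ((𝓡 2).prod (𝓡 3)) p} (hX : SmV X) (p : S2 × R3) :
    0 ≤ der X (der X ff) p - mvfderiv ((𝓡 2).prod (𝓡 3)) ff p (cov X p (X p)) := by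
  obtain ⟨Y, hY, hYd, hYf⟩ := exists_rad hg
  obtain ⟨a, -, haW⟩ := Emb.exists_covec (comE hD) hg p (X p)
  obtain ⟨Z, hZ, hZd⟩ := Emb.exists_X (comE hD) a
  have hZp : Z p = X p := XE.d_inj p (by rw [hZd, haW])
  rw [← hess_grad h hY hX hYf p, ← hZp, hess_grad h hY hZ hYf p, ← hYf p]
  have e1 := two_nabla_self h hZ (XE.smooth_comp (XE.B a).contDiff) (Emb.grad_X hg hZd) p (Y p)
  rw [Emb.gi_X hg hZd hZd, XE.d_comp p ((Emb.smoothFF (comE hD) a a).differentiable (by simp) _),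
    hYd, dFF hD, g.symm p _ (Y p)] at e1
  have d1 : der Z ff = fun q => (fun z : R3 × R3 => 2 * ⟪z.2, a.2⟫) (XE.j q) := by
    have h1 : der Z ff = fun q => Emb.Dir (WED D) a G0 (XE.j q) := Emb.der_comp hZd G0_smooth
    rw [h1]
    funext q
    rw [Emb.Dir, G0_fderiv, W_snd, inner_add_right, inner_cr3, zero_add]
  have hs1 : ContDiff ℝ ∞ (fun z : R3 × R3 => 2 * ⟪z.2, a.2⟫) :=
    contDiff_const.mul (contDiff_snd.inner ℝ contDiff_const)
  have d2 : der Z (der Z ff) p = 2 * ⟪(WED D (XE.j p) a).2, a.2⟫ := by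
    rw [d1]
    have h1 := congrFun (Emb.der_comp hZd hs1) p
    rw [h1, Emb.Dir]
    have h2 : HasFDerivAt (fun z : R3 × R3 => 2 * ⟪z.2, a.2⟫)
        ((2 : ℝ) • ((innerSL ℝ a.2).comp (ContinuousLinearMap.snd ℝ R3 R3))) (XE.j p) := by
      have h3 : HasFDerivAt (fun z : R3 × R3 => ⟪a.2, z.2⟫)
          ((innerSL ℝ a.2).comp (ContinuousLinearMap.snd ℝ R3 R3)) (XE.j p) :=
        ((innerSL ℝ a.2).comp (ContinuousLinearMap.snd ℝ R3 R3)).hasFDerivAt
      have h4 : (fun z : R3 × R3 => 2 * ⟪z.2, a.2⟫) = fun z : R3 × R3 => 2 * ⟪a.2, z.2⟫ := by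
        funext z; rw [real_inner_comm]
      rw [h4]
      exact h3.const_mul 2
    rw [h2.fderiv]
    change 2 * ⟪a.2, (WED D (XE.j p) a).2⟫ = _
    rw [real_inner_comm]
  rw [d2, W_snd]
  have e2 : g.inner p (Y p) (cov Z p (Z p)) =
      1 / 2 * dt ((2 : ℝ) • p.2).ofLp (gv (K0D D) (TD D) a a (XE.j p)) := by linarith
  rw [e2, inner_add_left]
  have e3 : 2 * (⟪cr3 (KK D (pj (XE.j p)) (YE.J (XE.j p) a)).2 (XE.j p).2, a.2⟫ + ⟪a.2, a.2⟫) -
      1 / 2 * dt ((2 : ℝ) • p.2).ofLp (gv (K0D D) (TD D) a a (XE.j p)) = 2 * ⟪a.2, a.2⟫ := by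
    have e4 : gv (K0D D) (TD D) a a (XE.j p) =
      cx a.2.ofLp (KK D (pj (XE.j p)) (YE.J (XE.j p) a)).2 +
      cx a.2.ofLp (KK D (pj (XE.j p)) (YE.J (XE.j p) a)).2 := rfl
    rw [e4, XE_j]
    generalize (KK D (pj ((p.1 : R3), p.2)) (YE.J ((p.1 : R3), p.2) a)).2 = u
    rw [inner_R3]
    simp [dt, cx, cr3]
    ring
  rw [e3]
  have := real_inner_self_nonneg (x := a.2)
  linarith

theorem totallyConvex (hD : Good D) (hg : XE.Dual g (WED D)) : TotallyConvex g (range i0) := by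
  intro cov h c hc s t hs ht τ hτ
  have key : ∀ t₀, DifferentiableAt ℝ (fun s => ff (c s)) t₀ ∧
      ∃ d : ℝ, 0 ≤ d ∧ HasDerivAt (deriv (fun s => ff (c s))) d t₀ := by
    intro t₀
    obtain ⟨X, hX, hev⟩ := hc t₀
    have h1 : ∀ᶠ t in 𝓝 t₀, HasDerivAt (fun s => ff (c s)) (der X ff (c t)) t :=
      hev.mono fun t ht => curve_der ht.1 ff_smooth
    have h2 : deriv (fun s => ff (c s)) =ᶠ[𝓝 t₀] fun t => der X ff (c t) :=
      h1.mono fun t ht => ht.deriv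
    have h3 : HasDerivAt (fun t => der X ff (c t)) (der X (der X ff) (c t₀)) t₀ :=
      curve_der hev.self_of_nhds.1 (Sm.der hX ff_smooth)
    refine ⟨h1.self_of_nhds.differentiableAt, _, ?_, h3.congr_of_eventuallyEq h2⟩
    have h4 := hess_rad hD hg h hX (c t₀)
    rw [hev.self_of_nhds.2, map_zero, sub_zero] at h4
    exact h4
  have hmono : Monotone (deriv (fun s => ff (c s))) := by
    refine monotone_of_deriv_nonneg (fun t₀ => ?_) fun t₀ => ?_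
    · obtain ⟨-, d, -, hd⟩ := key t₀
      exact hd.differentiableAt
    · obtain ⟨-, d, hd0, hd⟩ := key t₀
      rw [hd.deriv]
      exact hd0
  have hconv : ConvexOn ℝ univ (fun s => ff (c s)) :=
    hmono.convexOn_univ_of_deriv (fun t₀ => (key t₀).1)
  have h1 := hconv.le_max_of_mem_Icc (mem_univ s) (mem_univ t) hτ
  obtain ⟨x, hx⟩ := hs
  obtain ⟨y, hy⟩ := ht
  have h2 : ff (c s) = 0 := by
    rw [← hx, ff_eq]
    simp [i0]
  have h3 : ff (c t) = 0 := by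
    rw [← hy, ff_eq]
    simp [i0]
  rw [h2, h3, max_self, ff_eq] at h1
  have h4 : (c τ).2 = 0 := by
    have h5 : ‖(c τ).2‖ = 0 := by
      have := norm_nonneg (c τ).2
      nlinarith [sq_nonneg ‖(c τ).2‖]
    exact norm_eq_zero.1 h5
  exact ⟨(c τ).1, Prod.ext rfl h4.symm⟩

end Pool.Agent.Y490.WH
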