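import Pool.Agent.Y490.WH.EmbE
import Pool.Agent.Y490.WH.Alg

/-!
The curvature expression of the cometric `W z a + (0, a.2)` on `S² × ℝ³`.
-/

open Bundle Manifold ContDiff ContinuousLinearMap Filter VectorField Metric
open scoped Topology RealInnerProductSpace

set_option autoImplicit false
set_option synthInstance.maxHeartbeats 400000
set_option maxHeartbeats 4000000
set_option linter.unusedSectionVars false

noncomputable section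

namespace Pool.Agent.Y490.WH

open Pool.Agent.H821R2 Pool.Agent.H821R3 H907H Pool.Agent.H893R5.HO HopfPP Pool.Agent.H878R5

/-- projection to the second factor -/
def Pi2 : (R3 × R3) →L[ℝ] (R3 × R3) :=
  (ContinuousLinearMap.inr ℝ R3 R3).comp (ContinuousLinearMap.snd ℝ R3 R3)

theorem Pi2_apply (a : R3 × R3) : Pi2 a = (0, a.2) := rfl

theorem pj_Pi (a : R3 × R3) : pj (Pi2 a) = 0 := rfl

theorem dt6_zero_right (a : V6 ℝ) : dt6 a 0 = 0 := by simp [dt6, dt]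

theorem J_vert (η : R3) (b : R3 × R3) :
    YE.J ((0, η) : R3 × R3) b = (0, cx η.ofLp b.2.ofLp) := by
  rw [YE_J]
  refine Prod.ext ?_ rfl
  funext i; fin_cases i <;> simp [cx]

theorem J_Pi (a b : R3 × R3) : YE.J (Pi2 a) b = (0, cx a.2.ofLp b.2.ofLp) := J_vert a.2 b

theorem E_Pi (h : V6 ℝ) (a : R3 × R3) : YE.E h (Pi2 a) = (0, cr3 h.2 a.2) := by
  rw [YE_E]
  refine Prod.ext ?_ rfl
  ext i; fin_cases i <;> simp [cr3, cx, Pi2_apply]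

section

variable (K0 : V6 ℝ →L[ℝ] V6 ℝ) (T' : V ℝ →L[ℝ] V6 ℝ →L[ℝ] V6 ℝ)
  (hK0 : ∀ u v, dt6 (K0 u) v = dt6 u (K0 v)) (hT : ∀ z u v, dt6 (T' z u) v = dt6 u (T' z v))

/-- the cometric on `S² × ℝ³` -/
def WE (z : R3 × R3) : (R3 × R3) →L[ℝ] (R3 × R3) := YE.W (LA.Ka K0 (T'.comp pj)) z + Pi2

theorem WE_apply (z a : R3 × R3) : WE K0 T' z a =
    YE.E (LA.Ka K0 (T'.comp pj) z (YE.J z a)) z + Pi2 a := rfl

theorem T_Pi (a : R3 × R3) : (T'.comp pj) (Pi2 a) = 0 := by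
  rw [comp_apply, pj_Pi, map_zero]

theorem T_vert (η : R3) : (T'.comp pj) ((0, η) : R3 × R3) = 0 := T_Pi T' ((0, η) : R3 × R3)

theorem FF_WE (c d : R3 × R3) : XE.FF (WE K0 T') c d =
    fun z => YE.F K0 (T'.comp pj) c d z + XE.B c (Pi2 d) := by
  funext z
  change XE.B c (YE.W (LA.Ka K0 (T'.comp pj)) z d + Pi2 d) = _
  rw [map_add, YE.B_W]
  rfl

theorem fderiv_FF (c d z : R3 × R3) :
    fderiv ℝ (XE.FF (WE K0 T') c d) z = fderiv ℝ (YE.F K0 (T'.comp pj) c d) z := by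
  rw [FF_WE, fderiv_add_const]

theorem Dir_FF (a c d : R3 × R3) : Emb.Dir (WE K0 T') a (XE.FF (WE K0 T') c d) =
    fun z => fderiv ℝ (YE.F K0 (T'.comp pj) c d) z (WE K0 T' z a) := by
  funext z
  rw [Emb.Dir, fderiv_FF]

theorem der_WE (z b : R3 × R3) : ∃ D : (R3 × R3) →L[ℝ] (R3 × R3),
    HasFDerivAt (fun z => WE K0 T' z b) D z ∧ ∀ ζ, D ζ = YE.W1 K0 (T'.comp pj) z ζ b := by
  obtain ⟨D, h1, h2⟩ := YE.der_W K0 (T'.comp pj) z b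
  exact ⟨D, h1.add_const (Pi2 b), h2⟩

theorem Dir_Dir_FF (a b c d z : R3 × R3) :
    Emb.Dir (WE K0 T') a (Emb.Dir (WE K0 T') b (XE.FF (WE K0 T') c d)) z =
      YE.F2 K0 (T'.comp pj) c d z (WE K0 T' z b) (WE K0 T' z a)
        (YE.W1 K0 (T'.comp pj) z (WE K0 T' z a) b) := by
  obtain ⟨D, h1, h2⟩ := der_WE K0 T' z b
  rw [← h2, Dir_FF]
  exact YE.fderiv_F2 K0 (T'.comp pj) c d z _ h1

theorem Br_WE (a b z : R3 × R3) : Emb.Br (WE K0 T') a b z =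
    YE.W1 K0 (T'.comp pj) z (WE K0 T' z a) b - YE.W1 K0 (T'.comp pj) z (WE K0 T' z b) a := by
  obtain ⟨D, h1, h2⟩ := der_WE K0 T' z b
  obtain ⟨D', h1', h2'⟩ := der_WE K0 T' z a
  rw [Emb.Br, h1.fderiv, h1'.fderiv, h2, h2']

/-- the vertical gradient of `F_{cd}` -/
def gv (c d z : R3 × R3) : V ℝ :=
  cx c.2.ofLp (LA.Ka K0 (T'.comp pj) z (YE.J z d)).2 +
    cx d.2.ofLp (LA.Ka K0 (T'.comp pj) z (YE.J z c)).2

include hK0 hT in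
theorem kk (z : R3 × R3) (u v : V6 ℝ) : dt6 u (LA.Ka K0 (T'.comp pj) z v) =
    dt6 v (LA.Ka K0 (T'.comp pj) z u) :=
  LA.Ka_symm' K0 (T'.comp pj) hK0 (fun ζ u v => hT (pj ζ) u v) z u v

include hT in
theorem tt (ζ : R3 × R3) (u v : V6 ℝ) : dt6 u ((T'.comp pj) ζ v) = dt6 v ((T'.comp pj) ζ u) := by
  rw [comp_apply, ← hT, LA.dt6_comm]

include hK0 hT in
theorem F1_vert (c d z : R3 × R3) (η : R3) :
    YE.F1 K0 (T'.comp pj) c d z ((0, η) : R3 × R3) = dt η.ofLp (gv K0 T' c d z) := by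
  rw [LA.F1, T_vert, J_vert, J_vert, kk K0 T' hK0 hT z (YE.J z c), gv]
  generalize LA.Ka K0 (T'.comp pj) z (YE.J z d) = v
  generalize LA.Ka K0 (T'.comp pj) z (YE.J z c) = u
  simp [dt6, dt, cx]
  ring

include hK0 hT in
theorem F1_rep (a b c d z : R3 × R3) :
    YE.F1 K0 (T'.comp pj) a b z
      (WE K0 T' z (XE.rep (fderiv ℝ (YE.F K0 (T'.comp pj) c d) z))) =
    fderiv ℝ (YE.F K0 (T'.comp pj) a b) z (YE.W (LA.Ka K0 (T'.comp pj)) z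
      (XE.rep (fderiv ℝ (YE.F K0 (T'.comp pj) c d) z))) +
      dt (gv K0 T' a b z) (gv K0 T' c d z) := by
  obtain ⟨ρ, hρ⟩ : ∃ ρ, ρ = XE.rep (fderiv ℝ (YE.F K0 (T'.comp pj) c d) z) := ⟨_, rfl⟩
  have h1 : ∀ η : R3, ⟪ρ.2, η⟫ = dt η.ofLp (gv K0 T' c d z) := by
    intro η
    rw [← F1_vert K0 T' hK0 hT, ← YE.fderiv_F, ← Emb.B_rep (X := XE), ← hρ, XE_B]
    simp
  rw [← hρ, WE_apply, YE.F1_add, YE.fderiv_F]
  congr 1
  have h2 := h1 (WithLp.toLp 2 (gv K0 T' a b z))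
  rw [Pi2_apply, F1_vert K0 T' hK0 hT, ← h2, inner_R3]


theorem W1_Pi (z a b : R3 × R3) : YE.W1 K0 (T'.comp pj) z (Pi2 a) b =
    ((0, cr3 (LA.Ka K0 (T'.comp pj) z (YE.J z b)).2 a.2) : R3 × R3) +
      YE.E (LA.Ka K0 (T'.comp pj) z ((0, cx a.2.ofLp b.2.ofLp) : V6 ℝ)) z := by
  rw [LA.W1, T_Pi, J_Pi, E_Pi]
  simp

include hK0 hT in
theorem F2_WE (z c d p q : R3 × R3) :
    YE.F2 K0 (T'.comp pj) c d z (WE K0 T' z p) (WE K0 T' z q)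
        (YE.W1 K0 (T'.comp pj) z (WE K0 T' z q) p) =
      YE.F2 K0 (T'.comp pj) c d z (YE.W (LA.Ka K0 (T'.comp pj)) z p)
        (YE.W (LA.Ka K0 (T'.comp pj)) z q)
        (YE.W1 K0 (T'.comp pj) z (YE.W (LA.Ka K0 (T'.comp pj)) z q) p) +
      (dt (cx (LA.Ka K0 (T'.comp pj) z (YE.J z p)).2 q.2.ofLp) (gv K0 T' c d z) +
        YE.F1 K0 (T'.comp pj) c d z
          (YE.E (LA.Ka K0 (T'.comp pj) z ((0, cx q.2.ofLp p.2.ofLp) : V6 ℝ)) z)) +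
      (dt6 (YE.J (YE.W (LA.Ka K0 (T'.comp pj)) z p) c)
          (LA.Ka K0 (T'.comp pj) z ((0, cx q.2.ofLp d.2.ofLp) : V6 ℝ)) +
        dt6 ((0, cx q.2.ofLp c.2.ofLp) : V6 ℝ)
          ((T'.comp pj) (YE.W (LA.Ka K0 (T'.comp pj)) z p) (YE.J z d)) +
        dt6 (YE.J z c) ((T'.comp pj) (YE.W (LA.Ka K0 (T'.comp pj)) z p)
          ((0, cx q.2.ofLp d.2.ofLp) : V6 ℝ)) +
        dt6 ((0, cx q.2.ofLp c.2.ofLp) : V6 ℝ) (LA.Ka K0 (T'.comp pj) z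
          (YE.J (YE.W (LA.Ka K0 (T'.comp pj)) z p) d))) +
      (dt6 (YE.J (YE.W (LA.Ka K0 (T'.comp pj)) z q) c)
          (LA.Ka K0 (T'.comp pj) z ((0, cx p.2.ofLp d.2.ofLp) : V6 ℝ)) +
        dt6 ((0, cx p.2.ofLp c.2.ofLp) : V6 ℝ)
          ((T'.comp pj) (YE.W (LA.Ka K0 (T'.comp pj)) z q) (YE.J z d)) +
        dt6 (YE.J z c) ((T'.comp pj) (YE.W (LA.Ka K0 (T'.comp pj)) z q)
          ((0, cx p.2.ofLp d.2.ofLp) : V6 ℝ)) +
        dt6 ((0, cx p.2.ofLp c.2.ofLp) : V6 ℝ) (LA.Ka K0 (T'.comp pj) z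
          (YE.J (YE.W (LA.Ka K0 (T'.comp pj)) z q) d))) +
      (dt6 ((0, cx p.2.ofLp c.2.ofLp) : V6 ℝ)
          (LA.Ka K0 (T'.comp pj) z ((0, cx q.2.ofLp d.2.ofLp) : V6 ℝ)) +
        dt6 ((0, cx q.2.ofLp c.2.ofLp) : V6 ℝ)
          (LA.Ka K0 (T'.comp pj) z ((0, cx p.2.ofLp d.2.ofLp) : V6 ℝ))) := by
  have e1 : ∀ a, WE K0 T' z a = YE.W (LA.Ka K0 (T'.comp pj)) z a + Pi2 a := fun a => rfl
  have e2 : YE.W1 K0 (T'.comp pj) z (YE.W (LA.Ka K0 (T'.comp pj)) z q + Pi2 q) p =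
      YE.W1 K0 (T'.comp pj) z (YE.W (LA.Ka K0 (T'.comp pj)) z q) p +
        YE.W1 K0 (T'.comp pj) z (Pi2 q) p := by
    simp only [LA.W1, map_add, add_apply]
    abel
  rw [e1, e1, e2, W1_Pi, LA.F2, LA.F2, YE.F1_add, YE.F1_add, F1_vert K0 T' hK0 hT]
  have e3 : (cr3 (LA.Ka K0 (T'.comp pj) z (YE.J z p)).2 q.2).ofLp =
      cx (LA.Ka K0 (T'.comp pj) z (YE.J z p)).2 q.2.ofLp := rfl
  rw [e3]
  simp only [map_add, add_apply, T_Pi, J_Pi, dt6_add_left, dt6_add_right, _root_.zero_apply,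
    dt6_zero_right]
  ring

include hK0 hT in
/-- **The curvature expression on `S² × ℝ³`.** -/
theorem Pexp_WE (z a b γ : R3 × R3) :
    4 * XE.Pexp (WE K0 T') z a b γ =
      YE.PPa K0 (T'.comp pj) z (YE.J z a) (YE.J z b)
        ((YE.J z γ + (cx6 (YE.J z a) (LA.Ka K0 (T'.comp pj) z (YE.J z b)) -
          cx6 (YE.J z b) (LA.Ka K0 (T'.comp pj) z (YE.J z a))) -
            (YE.J (YE.E (LA.Ka K0 (T'.comp pj) z (YE.J z a)) z) b -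
              YE.J (YE.E (LA.Ka K0 (T'.comp pj) z (YE.J z b)) z) a)) -
          (2 : ℝ) • ((0, cx a.2.ofLp b.2.ofLp) : V6 ℝ)) +
      3 * dt (γ.2.ofLp - (cx (LA.Ka K0 (T'.comp pj) z (YE.J z b)).2 a.2.ofLp -
          cx (LA.Ka K0 (T'.comp pj) z (YE.J z a)).2 b.2.ofLp))
        (γ.2.ofLp - (cx (LA.Ka K0 (T'.comp pj) z (YE.J z b)).2 a.2.ofLp -
          cx (LA.Ka K0 (T'.comp pj) z (YE.J z a)).2 b.2.ofLp)) := by
  have h0 := YE.Pexp_eq K0 (T'.comp pj) hK0 (fun ζ u v => hT (pj ζ) u v) z a b γ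
  have hkk := kk K0 T' hK0 hT z
  have htt := tt T' hT
  -- the Gamma part
  have hG : ∀ Γ s : V6 ℝ, YE.PPa K0 (T'.comp pj) z (YE.J z a) (YE.J z b) (Γ - s) =
      YE.PPa K0 (T'.comp pj) z (YE.J z a) (YE.J z b) Γ +
      3 * (dt6 s (LA.Ka K0 (T'.comp pj) z s) - 2 * dt6 s (LA.Ka K0 (T'.comp pj) z Γ) +
        2 * dt6 s (((T'.comp pj) (YE.E (LA.Ka K0 (T'.comp pj) z (YE.J z a)) z) (YE.J z b) -
          (T'.comp pj) (YE.E (LA.Ka K0 (T'.comp pj) z (YE.J z b)) z) (YE.J z a) -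
          cx6 (LA.Ka K0 (T'.comp pj) z (YE.J z a)) (LA.Ka K0 (T'.comp pj) z (YE.J z b))) +
          LA.Ka K0 (T'.comp pj) z (cx6 (YE.J z a) (LA.Ka K0 (T'.comp pj) z (YE.J z b)) -
          cx6 (YE.J z b) (LA.Ka K0 (T'.comp pj) z (YE.J z a))))) := by
    intro Γ s
    rw [LA.PPa, LA.PPa, map_sub (LA.Ka K0 (T'.comp pj) z) Γ s]
    have h1 := hkk Γ s
    simp only [dt6_sub_left, dt6_sub_right]
    rw [h1]
    ring
  rw [hG, ← h0]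
  clear hG h0
  -- expand both curvature expressions
  have g1 := F1_rep K0 T' hK0 hT a a b b z
  have g2 := F1_rep K0 T' hK0 hT a b a b z
  have t1 : XE.B γ (WE K0 T' z γ) = XE.B γ (YE.W (LA.Ka K0 (T'.comp pj)) z γ) +
      dt γ.2.ofLp γ.2.ofLp := by
    rw [WE, add_apply, map_add, Pi2_apply]
    congr 1
    rw [XE_B, inner_zero_right, zero_add, inner_R3]
  have t2 : Emb.Br (WE K0 T') a b z = Emb.Br (YE.W (LA.Ka K0 (T'.comp pj))) a b z +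
      (YE.W1 K0 (T'.comp pj) z (Pi2 a) b - YE.W1 K0 (T'.comp pj) z (Pi2 b) a) := by
    rw [Br_WE, Emb.Br, YE.fderiv_W, YE.fderiv_W]
    simp only [WE_apply, LA.W1, map_add, add_apply, LA.W_apply]
    abel
  rw [Emb.Pexp, Emb.Pexp, Dir_Dir_FF, Dir_Dir_FF, Dir_Dir_FF, Dir_Dir_FF, YE.FF_W, YE.FF_W,
    YE.FF_W, YE.Dir_Dir, YE.Dir_Dir, YE.Dir_Dir, YE.Dir_Dir, fderiv_FF, fderiv_FF, fderiv_FF,
    YE.fderiv_F K0 (T'.comp pj) a a z (WE K0 T' z _), g1,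
    YE.fderiv_F K0 (T'.comp pj) a b z (WE K0 T' z _), g2, t1, t2]
  clear g1 g2 t1 t2
  rw [F2_WE K0 T' hK0 hT, F2_WE K0 T' hK0 hT, F2_WE K0 T' hK0 hT, F2_WE K0 T' hK0 hT, W1_Pi, W1_Pi]
  obtain ⟨s, hs⟩ : ∃ s : V6 ℝ, s = (0, cx a.2.ofLp b.2.ofLp) := ⟨_, rfl⟩
  have n1 : ((0, cx b.2.ofLp a.2.ofLp) : V6 ℝ) = -s := by
    rw [hs]
    refine Prod.ext ?_ ?_
    · simp
    · funext i; fin_cases i <;> simp [cx] <;> ring
  have n2 : ∀ w : V ℝ, ((0, cx w w) : V6 ℝ) = 0 := by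
    intro w
    refine Prod.ext rfl ?_
    funext i; fin_cases i <;> simp [cx] <;> ring
  have nl : ∀ p q : V6 ℝ, dt6 (-p) q = -dt6 p q := fun p q => by
    simp [dt6, dt]; ring
  have zl : ∀ q : V6 ℝ, dt6 0 q = 0 := fun q => by simp [dt6, dt]
  have bv : ∀ (h : V ℝ) (c : R3), XE.B γ ((0, cr3 h c) : R3 × R3) = dt γ.2.ofLp (cx h c.ofLp) := by
    intro h c
    rw [XE_B, inner_zero_right, zero_add, inner_R3]
    rfl
  rw [n1, n2, n2, ← hs]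
  simp only [map_add, map_sub, map_neg, map_zero, _root_.neg_apply, _root_.zero_apply, nl, zl,
    dt6_neg_right, dt6_zero_right, bv, ← LA.dt6_J, LA.W_apply, map_smul, dt6_smul_left,
    dt6_smul_right, dt6_add_right, dt6_sub_right]
  have f0 : YE.F1 K0 (T'.comp pj) b b z 0 = 0 := by simp [LA.F1, dt6_zero_right, zl]
  have f0' : YE.F1 K0 (T'.comp pj) a a z 0 = 0 := by simp [LA.F1, dt6_zero_right, zl]
  have f1 : YE.F1 K0 (T'.comp pj) a b z (-YE.E (LA.Ka K0 (T'.comp pj) z s) z) =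
      -YE.F1 K0 (T'.comp pj) a b z (YE.E (LA.Ka K0 (T'.comp pj) z s) z) := by
    simp only [LA.F1, map_neg, _root_.neg_apply, nl, dt6_neg_right]
    ring
  rw [f0, f0', f1]
  have k1 := hkk s (YE.J (YE.E (LA.Ka K0 (T'.comp pj) z (YE.J z a)) z) b)
  have k2 := hkk s (YE.J (YE.E (LA.Ka K0 (T'.comp pj) z (YE.J z b)) z) a)
  have k3 := hkk s (YE.J z γ)
  have t1 := htt (YE.E (LA.Ka K0 (T'.comp pj) z (YE.J z a)) z) (YE.J z b) s
  have t2 := htt (YE.E (LA.Ka K0 (T'.comp pj) z (YE.J z b)) z) (YE.J z a) s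
  have hvec : 4 * (1 / 2 * dt (cx (LA.Ka K0 (T'.comp pj) z (YE.J z a)).2 a.2.ofLp)
        (gv K0 T' b b z) +
      1 / 2 * dt (cx (LA.Ka K0 (T'.comp pj) z (YE.J z b)).2 b.2.ofLp) (gv K0 T' a a z) -
      1 / 2 * (dt (cx (LA.Ka K0 (T'.comp pj) z (YE.J z b)).2 a.2.ofLp) (gv K0 T' a b z) +
        dt (cx (LA.Ka K0 (T'.comp pj) z (YE.J z a)).2 b.2.ofLp) (gv K0 T' a b z)) -
      1 / 4 * dt (gv K0 T' a a z) (gv K0 T' b b z) + 1 / 4 * dt (gv K0 T' a b z) (gv K0 T' a b z) +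
      3 / 4 * (dt γ.2.ofLp γ.2.ofLp -
        2 * (dt γ.2.ofLp (cx (LA.Ka K0 (T'.comp pj) z (YE.J z b)).2 a.2.ofLp) -
          dt γ.2.ofLp (cx (LA.Ka K0 (T'.comp pj) z (YE.J z a)).2 b.2.ofLp)))) =
      3 * dt (γ.2.ofLp - (cx (LA.Ka K0 (T'.comp pj) z (YE.J z b)).2 a.2.ofLp -
          cx (LA.Ka K0 (T'.comp pj) z (YE.J z a)).2 b.2.ofLp))
        (γ.2.ofLp - (cx (LA.Ka K0 (T'.comp pj) z (YE.J z b)).2 a.2.ofLp -
          cx (LA.Ka K0 (T'.comp pj) z (YE.J z a)).2 b.2.ofLp)) -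
      12 * dt6 s (cx6 (LA.Ka K0 (T'.comp pj) z (YE.J z a)) (LA.Ka K0 (T'.comp pj) z (YE.J z b))) := by
    rw [hs, gv, gv, gv]
    generalize LA.Ka K0 (T'.comp pj) z (YE.J z a) = u
    generalize LA.Ka K0 (T'.comp pj) z (YE.J z b) = v
    generalize a.2.ofLp = a2
    generalize b.2.ofLp = b2
    generalize γ.2.ofLp = g2
    simp only [dt6, dt, cx6, cx, Pi.add_apply, Pi.sub_apply, Matrix.cons_val_zero,
      Matrix.cons_val_one, Matrix.cons_val, Pi.zero_apply]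
    ring
  rw [k1, k2, k3, t1, t2]
  linear_combination hvec

end

end Pool.Agent.Y490.WH
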