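import Pool.Agent.H878R5.S23.Stmt

/-!
Souls, distance spheres and the weak Hopf conjecture: statements.
-/

open Bundle Manifold ContDiff Filter Set
open scoped Topology ENNReal

set_option autoImplicit false

noncomputable section

namespace Pool.Agent.Y490.WH

open Pool.Agent.H821R2 Pool.Agent.H878R5

section defs

variable {E : Type*} [NormedAddCommGroup E] [NormedSpace ℝ E]
  {H : Type*} [TopologicalSpace H] {I : ModelWithCorners ℝ E H}
  {M : Type*} [TopologicalSpace M] [ChartedSpace H M] [IsManifold I ∞ M]
  {E' : Type*} [NormedAddCommGroup E'] [NormedSpace ℝ E']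
  {H' : Type*} [TopologicalSpace H'] {I' : ModelWithCorners ℝ E' H'}
  {N : Type*} [TopologicalSpace N] [ChartedSpace H' N]

/-- The Riemannian distance of `g`: the infimum of the `g`-lengths of the `C¹` paths from `x` to
`y` (Mathlib's `riemannianEDist`). -/
def gdist (g : ContMDiffRiemannianMetric I ∞ E (fun x : M => TangentSpace I x)) (x y : M) :
    ℝ≥0∞ :=
  letI : RiemannianBundle (fun x : M => TangentSpace I x) := ⟨g.toRiemannianMetric⟩
  riemannianEDist I x y

/-- The distance sphere `{x : d_g(x, S) = r}` of radius `r` about the subset `S`. -/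
def distSphere (g : ContMDiffRiemannianMetric I ∞ E (fun x : M => TangentSpace I x))
    (S : Set M) (r : ℝ) : Set M :=
  {x | ⨅ y ∈ S, gdist g x y = ENNReal.ofReal r}

/-- The Riemannian metric `g` is complete: every Cauchy sequence for its distance converges. -/
def CompleteMetric (g : ContMDiffRiemannianMetric I ∞ E (fun x : M => TangentSpace I x)) : Prop :=
  ∀ u : ℕ → M, (∀ ε : ℝ≥0∞, 0 < ε → ∃ n₀, ∀ m n, n₀ ≤ m → n₀ ≤ n → gdist g (u m) (u n) < ε) →
    ∃ x, Tendsto u atTop (𝓝 x)

/-- The smooth Riemannian metric `g` has nonnegative sectional curvature: it has a Levi-Civita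
connection and a Riemann curvature tensor, and for any such connection and tensor every tangent
plane (spanned by an orthonormal pair `u`, `v`) at every point has sectional curvature `≥ 0`. -/
def NonnegativelyCurved
    (g : ContMDiffRiemannianMetric I ∞ E (fun x : M => TangentSpace I x)) : Prop :=
  (∃ (cov : CovariantDerivative I E (TangentSpace I : M → Type _)) (R : CurvField I M),
    IsLeviCivita g cov ∧ IsRiemannTensor cov R) ∧
  ∀ (cov : CovariantDerivative I E (TangentSpace I : M → Type _)) (R : CurvField I M),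
    IsLeviCivita g cov → IsRiemannTensor cov R →
      ∀ (p : M) (u v : TangentSpace I p), OrthoPair g p u v → 0 ≤ sec g R p u v

/-- `f : N → M` is a smooth embedding: it is smooth, its differential is injective at every point
and it is a homeomorphism onto its image. -/
structure SmoothEmb (I' : ModelWithCorners ℝ E' H') (I : ModelWithCorners ℝ E H)
    (f : N → M) : Prop where
  smooth : ContMDiff I' I ∞ f
  immersion : ∀ q, Function.Injective (mfderiv I' I f q)
  embedding : Topology.IsEmbedding f

/-- The submanifold `f(N)` of `(M, g)` is totally geodesic: if the vector fields `X`, `Y` on `M` are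
tangent to `f(N)` along `f(N)`, then so is `∇_X Y`. -/
def TotallyGeodesic (g : ContMDiffRiemannianMetric I ∞ E (fun x : M => TangentSpace I x))
    (I' : ModelWithCorners ℝ E' H') (f : N → M) : Prop :=
  ∀ cov : CovariantDerivative I E (TangentSpace I : M → Type _), IsLeviCivita g cov →
    ∀ X Y : Π x : M, TangentSpace I x, CMDiff ∞ (T% X) → CMDiff ∞ (T% Y) →
      (∀ q, X (f q) ∈ range (mfderiv I' I f q)) → (∀ q, Y (f q) ∈ range (mfderiv I' I f q)) →
      ∀ q, cov Y (f q) (X (f q)) ∈ range (mfderiv I' I f q)

/-- `c : ℝ → M` is a geodesic of the connection: near every time `t₀` it is an integral curve of a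
smooth vector field `X` on `M` with `∇_X X = 0` along `c`. (The velocity field of a nonconstant
geodesic extends locally to a smooth vector field, so this is the usual notion.) -/
def IsGeodesic (cov : CovariantDerivative I E (TangentSpace I : M → Type _)) (c : ℝ → M) : Prop :=
  ∀ t₀ : ℝ, ∃ X : Π x : M, TangentSpace I x, CMDiff ∞ (T% X) ∧
    ∀ᶠ t in 𝓝 t₀, HasMFDerivAt 𝓘(ℝ, ℝ) I c t ((1 : ℝ →L[ℝ] ℝ).smulRight (X (c t))) ∧
      cov X (c t) (X (c t)) = 0

/-- The subset `S` of `(M, g)` is totally convex: a geodesic segment with end points in `S` lies in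
`S`. -/
def TotallyConvex (g : ContMDiffRiemannianMetric I ∞ E (fun x : M => TangentSpace I x))
    (S : Set M) : Prop :=
  ∀ cov : CovariantDerivative I E (TangentSpace I : M → Type _), IsLeviCivita g cov →
    ∀ c : ℝ → M, IsGeodesic cov c → ∀ s t : ℝ, c s ∈ S → c t ∈ S → ∀ τ ∈ Icc s t, c τ ∈ S

/-- The normal bundle of the submanifold `f(N)`, as a subset of the tangent bundle of `M`. -/
def normalBundle (g : ContMDiffRiemannianMetric I ∞ E (fun x : M => TangentSpace I x))
    (I' : ModelWithCorners ℝ E' H') (f : N → M) : Set (TangentBundle I M) :=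
  {ξ | ∃ (q : N) (v : TangentSpace I (f q)), ξ = ⟨f q, v⟩ ∧
    ∀ u : TangentSpace I' q, g.inner (f q) v (mfderiv I' I f q u) = 0}

/-- The submanifold `f(N)` is a soul of `(M, g)`: it is compact, connected, without boundary,
embedded, totally geodesic and totally convex, and `M` is diffeomorphic to its normal bundle (there
is a smooth embedding of `M` into its tangent bundle whose image is the normal bundle). -/
structure IsSoul (g : ContMDiffRiemannianMetric I ∞ E (fun x : M => TangentSpace I x))
    (I' : ModelWithCorners ℝ E' H') (f : N → M) : Prop where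
  compact : CompactSpace N
  connected : ConnectedSpace N
  boundaryless : BoundarylessManifold I' N
  embedded : SmoothEmb I' I f
  totallyGeodesic : TotallyGeodesic g I' f
  totallyConvex : TotallyConvex g (range f)
  normal : ∃ Φ : M → TangentBundle I M, SmoothEmb I I.tangent Φ ∧ range Φ = normalBundle g I' f

/-- `h` is the Riemannian metric on `N` induced by `g` and the smooth embedding `f : N → M`. -/
def IsInduced [IsManifold I' ∞ N]
    (g : ContMDiffRiemannianMetric I ∞ E (fun x : M => TangentSpace I x))
    (h : ContMDiffRiemannianMetric I' ∞ E' (fun x : N => TangentSpace I' x)) (f : N → M) : Prop :=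
  SmoothEmb I' I f ∧ ∀ (q : N) (u v : TangentSpace I' q),
    h.inner q u v = g.inner (f q) (mfderiv I' I f q u) (mfderiv I' I f q v)

end defs

section defs0

variable {E : Type} [NormedAddCommGroup E] [NormedSpace ℝ E]
  {H : Type} [TopologicalSpace H] {I : ModelWithCorners ℝ E H}
  {M : Type} [TopologicalSpace M] [ChartedSpace H M] [IsManifold I ∞ M]

/-- The smooth Riemannian metrics on the smooth manifold `M`. -/
abbrev RMetric (I : ModelWithCorners ℝ E H) (M : Type) [TopologicalSpace M] [ChartedSpace H M]
    [IsManifold I ∞ M] : Type :=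
  ContMDiffRiemannianMetric I ∞ E (fun x : M => TangentSpace I x)

/-- The subset `T` is a compact smooth hypersurface of `(M, g)`, and the Riemannian metric induced on
it by `g` has positive sectional curvature. -/
def PositivelyCurvedHypersurface (g : RMetric I M) (T : Set M) : Prop :=
  ∃ (E' : Type) (_ : NormedAddCommGroup E') (_ : NormedSpace ℝ E') (H' : Type)
    (_ : TopologicalSpace H') (I' : ModelWithCorners ℝ E' H') (N : Type) (_ : TopologicalSpace N)
    (_ : ChartedSpace H' N) (_ : IsManifold I' ∞ N) (f : N → M) (h : RMetric I' N),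
    Module.finrank ℝ E' + 1 = Module.finrank ℝ E ∧ FiniteDimensional ℝ E' ∧ CompactSpace N ∧
      BoundarylessManifold I' N ∧ range f = T ∧ IsInduced g h f ∧ PositivelyCurved h

/-- The assertion of the weak Hopf conjecture for the Riemannian manifold `(M, g)`: if `g` is complete
of nonnegative sectional curvature, then for every soul `Σ = f(N)` of `(M, g)` and every sufficiently
small `r > 0` the metric induced by `g` on `Σ_r` does not have positive sectional curvature. -/
def WeakHopfFor (g : RMetric I M) : Prop :=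
  CompleteMetric g → NonnegativelyCurved g →
    ∀ (E' : Type) [NormedAddCommGroup E'] [NormedSpace ℝ E'] (H' : Type) [TopologicalSpace H']
      (I' : ModelWithCorners ℝ E' H') (N : Type) [TopologicalSpace N] [ChartedSpace H' N]
      [IsManifold I' ∞ N] (f : N → M), IsSoul g I' f →
    ∃ r₀ : ℝ, 0 < r₀ ∧ ∀ r : ℝ, 0 < r → r < r₀ →
      ¬ PositivelyCurvedHypersurface g (distSphere g (range f) r)

/-- `g` is complete, has nonnegative sectional curvature and `f(N)` is a soul of `(M, g)`. -/
def NonnegWithSoul {E' : Type} [NormedAddCommGroup E'] [NormedSpace ℝ E'] {H' : Type}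
    [TopologicalSpace H'] {N : Type} [TopologicalSpace N] [ChartedSpace H' N]
    (g : RMetric I M) (I' : ModelWithCorners ℝ E' H') (f : N → M) : Prop :=
  CompleteMetric g ∧ NonnegativelyCurved g ∧ IsSoul g I' f

/-- The map `t : N → M` is a smooth embedding whose image is the distance sphere of radius `r` about
`S`, and the metric `t^* g` has positive sectional curvature. -/
def PositiveTube {E' : Type} [NormedAddCommGroup E'] [NormedSpace ℝ E'] {H' : Type}
    [TopologicalSpace H'] {N : Type} [TopologicalSpace N] [ChartedSpace H' N]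
    (g : RMetric I M) (S : Set M) (r : ℝ) (I' : ModelWithCorners ℝ E' H') [IsManifold I' ∞ N]
    (t : N → M) : Prop :=
  range t = distSphere g S r ∧ ∃ h : RMetric I' N, IsInduced g h t ∧ PositivelyCurved h

end defs0

instance factFinrank (n : ℕ) :
    Fact (Module.finrank ℝ (EuclideanSpace ℝ (Fin (n + 1))) = n + 1) := ⟨by simp⟩

/-- The unit sphere `Sⁿ` of `ℝⁿ⁺¹`. -/
abbrev Sph (n : ℕ) : Type := Metric.sphere (0 : EuclideanSpace ℝ (Fin (n + 1))) 1

/-- The smooth Riemannian metrics on `Sⁿ × ℝᵏ`. -/
def MetricSnRk (n k : ℕ) : Type :=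
  RMetric ((𝓡 n).prod (𝓡 k)) (Sph n × EuclideanSpace ℝ (Fin k))

/-- The zero section `Sⁿ → Sⁿ × ℝᵏ`, `x ↦ (x, 0)`. -/
def zeroEmb (n k : ℕ) (x : Sph n) : Sph n × EuclideanSpace ℝ (Fin k) := (x, 0)

/-- The map `Sⁿ × Sᵏ → Sⁿ × ℝᵏ⁺¹`, `(x, y) ↦ (x, r y)`. -/
def tubeMap (n k : ℕ) (r : ℝ) (p : Sph n × Sph k) : Sph n × EuclideanSpace ℝ (Fin (k + 1)) :=
  (p.1, r • (p.2 : EuclideanSpace ℝ (Fin (k + 1))))

/-- The metric `g` on `Sⁿ × ℝᵏ` is complete, has nonnegative sectional curvature, and `Sⁿ × {0}` is
a soul. -/
def ZeroSectionSoul (n k : ℕ) (g : MetricSnRk n k) : Prop :=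
  NonnegWithSoul (I := (𝓡 n).prod (𝓡 k)) (M := Sph n × EuclideanSpace ℝ (Fin k)) g (𝓡 n)
    (zeroEmb n k)

/-- For every `r > 0`, the map `(x, y) ↦ (x, r y)` is a smooth embedding of `Sⁿ × Sᵏ` onto the
distance sphere of radius `r` about `Sⁿ × {0}`, and the metric induced on it by `g` has positive
sectional curvature. -/
def AllTubesPositive (n k : ℕ) (g : MetricSnRk n (k + 1)) : Prop :=
  ∀ r : ℝ, 0 < r →
    PositiveTube (I := (𝓡 n).prod (𝓡 (k + 1))) (M := Sph n × EuclideanSpace ℝ (Fin (k + 1))) g
      (range (zeroEmb n (k + 1))) r ((𝓡 n).prod (𝓡 k)) (tubeMap n k r)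

/-- The weak Hopf conjecture for the metric `g` on `Sⁿ × ℝᵏ`. -/
def WeakHopfSnRk (n k : ℕ) (g : MetricSnRk n k) : Prop :=
  WeakHopfFor (I := (𝓡 n).prod (𝓡 k)) (M := Sph n × EuclideanSpace ℝ (Fin k)) g

/-- The assertion of Q1 (the weak Hopf conjecture of Gromoll and Tapp): for every `n ≥ 1`, `k ≥ 3`,
every complete metric `g` of nonnegative sectional curvature on `Sⁿ × ℝᵏ` with soul `Σ` and every
sufficiently small `r > 0`, the metric induced by `g` on the distance sphere `Σ_r` does not have
positive sectional curvature. -/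
def WeakHopfConjecture : Prop :=
  ∀ n k : ℕ, 1 ≤ n → 3 ≤ k → ∀ g : MetricSnRk n k, WeakHopfSnRk n k g

end Pool.Agent.Y490.WH
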