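import Pool.Agent.Y490.WH.Tube
import Pool.Agent.Y490.WH.Stmt

/-!
Distances on `S² × ℝ³`: the distance to `S² × {0}` is `|w|`, and the metric is complete.
-/

open Bundle Manifold ContDiff ContinuousLinearMap Filter VectorField Metric Set MeasureTheory
open scoped Topology RealInnerProductSpace ENNReal

set_option autoImplicit false
set_option synthInstance.maxHeartbeats 400000
set_option maxHeartbeats 4000000
set_option linter.unusedSectionVars false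

noncomputable section

namespace Pool.Agent.Y490.WH

open Pool.Agent.H821R2 Pool.Agent.H821R3 H907H Pool.Agent.H893R5.HO HopfPP Pool.Agent.H878R5

variable {D : Dat ℝ}
  {g : ContMDiffRiemannianMetric ((𝓡 2).prod (𝓡 3)) ∞
    (EuclideanSpace ℝ (Fin 2) × EuclideanSpace ℝ (Fin 3))
    (fun x : S2 × R3 => TangentSpace ((𝓡 2).prod (𝓡 3)) x)}

theorem J_radial (z : R3 × R3) (s : ℝ) : YE.J z ((0, s • z.2) : R3 × R3) = 0 := by
  rw [YE_J]
  refine Prod.ext ?_ ?_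
  · funext i; fin_cases i <;> simp [cx]
  · funext i; fin_cases i <;> simp [cx] <;> ring

theorem WED_radial (D : Dat ℝ) (z : R3 × R3) (s : ℝ) :
    WED D z ((0, s • z.2) : R3 × R3) = (0, s • z.2) := by
  have k0 : ∀ x, KK D x 0 = 0 := fun x => by rw [KK_eq, map_zero, map_zero, add_zero]
  rw [WED_apply, J_radial, k0, map_zero, Pi2_apply]
  simp

theorem WED_vert (D : Dat ℝ) (z : R3 × R3) (w : R3) (h : cx z.2.ofLp w.ofLp = 0) :
    WED D z ((0, w) : R3 × R3) = (0, w) := by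
  have h : YE.J z ((0, w) : R3 × R3) = 0 := by
    rw [YE_J]
    refine Prod.ext ?_ h
    funext i; fin_cases i <;> simp [cx]
  have k0 : ∀ x, KK D x 0 = 0 := fun x => by rw [KK_eq, map_zero, map_zero, add_zero]
  rw [WED_apply, h, k0, map_zero, Pi2_apply]
  simp

/-- a vertical tangent vector -/
def vv (p : S2 × R3) (w : R3) : TangentSpace ((𝓡 2).prod (𝓡 3)) p :=
  ((0 : EuclideanSpace ℝ (Fin 2)), (w : EuclideanSpace ℝ (Fin 3)))

theorem d_vv (p : S2 × R3) (w : R3) : XE.d p (vv p w) = (0, w) := by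
  rw [XE_d]
  refine Prod.ext ?_ rfl
  exact map_zero _

theorem inner_vert (hg : XE.Dual g (WED D)) (p : S2 × R3) (w : R3)
    (h : cx p.2.ofLp w.ofLp = 0) (v : TangentSpace ((𝓡 2).prod (𝓡 3)) p) :
    g.inner p (vv p w) v = ⟪w, (XE.d p v).2⟫ := by
  rw [hg p ((0, w) : R3 × R3) (vv p w) (by
    rw [d_vv]
    exact (WED_vert D (XE.j p) w h).symm) v, XE_B, inner_zero_left, zero_add]

theorem inner_radial (hg : XE.Dual g (WED D)) (p : S2 × R3) (s : ℝ)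
    (v : TangentSpace ((𝓡 2).prod (𝓡 3)) p) :
    g.inner p (vv p (s • p.2)) v = s * ⟪p.2, (XE.d p v).2⟫ := by
  rw [hg p ((0, s • p.2) : R3 × R3) (vv p (s • p.2)) (by
    rw [d_vv]
    exact (WED_radial D (XE.j p) s).symm) v, XE_B, inner_zero_left, zero_add,
    real_inner_smul_left]

theorem cauchy_schwarz (p : S2 × R3) (u v : TangentSpace ((𝓡 2).prod (𝓡 3)) p) :
    g.inner p u v ^ 2 ≤ g.inner p u u * g.inner p v v := by
  let _ : RiemannianBundle (fun x : S2 × R3 => TangentSpace ((𝓡 2).prod (𝓡 3)) x) :=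
    ⟨g.toRiemannianMetric⟩
  have h := real_inner_mul_inner_self_le u v
  have e : ∀ a b : TangentSpace ((𝓡 2).prod (𝓡 3)) p, ⟪a, b⟫ = g.inner p a b := fun a b => rfl
  rw [e, e, e] at h
  rw [sq]
  exact h

theorem radial_le (hg : XE.Dual g (WED D)) (p : S2 × R3)
    (v : TangentSpace ((𝓡 2).prod (𝓡 3)) p) :
    ⟪p.2, (XE.d p v).2⟫ ^ 2 ≤ ‖p.2‖ ^ 2 * g.inner p v v := by
  have h := cauchy_schwarz (g := g) p (vv p ((1 : ℝ) • p.2)) v
  rw [inner_radial hg, inner_radial hg, d_vv] at h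
  simp only [one_mul, one_smul] at h
  rwa [real_inner_self_eq_norm_sq] at h

theorem snd_curve {γ : ℝ → S2 × R3} (hγ : ContMDiff 𝓘(ℝ, ℝ) ((𝓡 2).prod (𝓡 3)) 1 γ) :
    ContDiff ℝ 1 (fun t => (γ t).2) ∧ ∀ t, HasDerivAt (fun t => (γ t).2)
      (XE.d (γ t) (mfderiv 𝓘(ℝ, ℝ) ((𝓡 2).prod (𝓡 3)) γ t (1 : ℝ))).2 t := by
  have h1 : ContMDiff 𝓘(ℝ, ℝ) (𝓡 3) 1 (fun t => (γ t).2) := contMDiff_snd.comp hγ
  have h2 : ContDiff ℝ 1 (fun t => (γ t).2) := contMDiff_iff_contDiff.1 h1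
  refine ⟨h2, fun t => ?_⟩
  have h3 : DifferentiableAt ℝ (fun t => (γ t).2) t := h2.differentiable (by simp) t
  have h4 : MDifferentiableAt 𝓘(ℝ, ℝ) ((𝓡 2).prod (𝓡 3)) γ t := hγ.mdifferentiableAt (by simp)
  have h5 := mfderiv_comp t (f := γ) (g := (Prod.snd : S2 × R3 → R3)) (I := 𝓘(ℝ, ℝ))
    (I' := (𝓡 2).prod (𝓡 3)) (I'' := 𝓡 3) mdifferentiableAt_snd h4
  have e1 : mfderiv ((𝓡 2).prod (𝓡 3)) (𝓡 3) (Prod.snd : S2 × R3 → R3) (γ t) =
      ContinuousLinearMap.snd ℝ (EuclideanSpace ℝ (Fin 2)) (EuclideanSpace ℝ (Fin 3)) :=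
    mfderiv_snd
  rw [e1] at h5
  have h6 : mfderiv 𝓘(ℝ, ℝ) (𝓡 3) (fun t => (γ t).2) t = fderiv ℝ (fun t => (γ t).2) t :=
    mfderiv_eq_fderiv
  have h7 : fderiv ℝ (fun t => (γ t).2) t (1 : ℝ) =
      (XE.d (γ t) (mfderiv 𝓘(ℝ, ℝ) ((𝓡 2).prod (𝓡 3)) γ t (1 : ℝ))).2 := by
    rw [XE_d]
    exact (congrArg (fun L : ℝ →L[ℝ] R3 => L 1) h6).symm.trans
      (congrArg (fun L : ℝ →L[ℝ] R3 => L 1) h5)
  rw [← h7]
  exact h3.hasDerivAt

theorem rho_lip (hg : XE.Dual g (WED D)) (x y : S2 × R3) :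
    ENNReal.ofReal (‖y.2‖ - ‖x.2‖) ≤ gdist g x y := by
  let _ : RiemannianBundle (fun x : S2 × R3 => TangentSpace ((𝓡 2).prod (𝓡 3)) x) :=
    ⟨g.toRiemannianMetric⟩
  change _ ≤ riemannianEDist ((𝓡 2).prod (𝓡 3)) x y
  refine le_of_forall_gt (fun r hr => ?_)
  obtain ⟨γ, h0, h1, hγ, hL, -, -⟩ :=
    exists_lt_locally_constant_of_riemannianEDist_lt hr zero_lt_one
  refine lt_of_le_of_lt ?_ hL
  obtain ⟨hw, hw'⟩ := snd_curve hγ
  refine ENNReal.le_of_forall_pos_le_add fun ε hε _ => ?_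
  obtain ⟨φ, hφ⟩ : ∃ φ : ℝ → ℝ, φ = fun t => Real.sqrt (‖(γ t).2‖ ^ 2 + (ε : ℝ) ^ 2) := ⟨_, rfl⟩
  have hpos : ∀ t, 0 < ‖(γ t).2‖ ^ 2 + (ε : ℝ) ^ 2 := fun t => by
    have : (0 : ℝ) < ε := hε
    positivity
  have hφ1 : ContDiff ℝ 1 φ := by
    rw [hφ]
    exact ((hw.norm_sq ℝ).add contDiff_const).sqrt fun t => (hpos t).ne'
  have hφ2 : ∀ t, HasDerivAt φ ((2 * ⟪(γ t).2,
      (XE.d (γ t) (mfderiv 𝓘(ℝ, ℝ) ((𝓡 2).prod (𝓡 3)) γ t (1 : ℝ))).2⟫) /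
        (2 * Real.sqrt (‖(γ t).2‖ ^ 2 + (ε : ℝ) ^ 2))) t := by
    intro t
    rw [hφ]
    exact ((hw' t).norm_sq.add_const _).sqrt (hpos t).ne'
  have hb : ∀ t, ‖deriv φ t‖ₑ ≤ ‖mfderiv 𝓘(ℝ, ℝ) ((𝓡 2).prod (𝓡 3)) γ t (1 : ℝ)‖ₑ := by
    intro t
    obtain ⟨v, hv⟩ : ∃ v, v = mfderiv 𝓘(ℝ, ℝ) ((𝓡 2).prod (𝓡 3)) γ t (1 : ℝ) := ⟨_, rfl⟩
    rw [(hφ2 t).deriv, ← hv, ← ofReal_norm, ← ofReal_norm]
    apply ENNReal.ofReal_le_ofReal
    have h2 : 0 ≤ g.inner (γ t) v v := by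
      by_cases h : v = 0
      · rw [h, map_zero]
      · exact (g.pos _ v h).le
    have h3 : ‖v‖ = Real.sqrt (g.inner (γ t) v v) := norm_eq_sqrt_real_inner v
    have h4 := radial_le hg (γ t) v
    have h5 : 0 < Real.sqrt (‖(γ t).2‖ ^ 2 + (ε : ℝ) ^ 2) := Real.sqrt_pos.2 (hpos t)
    rw [h3, Real.norm_eq_abs, abs_div, abs_of_pos (by positivity : (0 : ℝ) <
      2 * Real.sqrt (‖(γ t).2‖ ^ 2 + (ε : ℝ) ^ 2)), abs_mul, abs_two, mul_div_mul_left _ _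
      (two_ne_zero), div_le_iff₀ h5]
    apply abs_le_of_sq_le_sq _ (by positivity)
    rw [mul_pow, Real.sq_sqrt h2, Real.sq_sqrt (hpos t).le]
    refine h4.trans ?_
    have h6 : 0 ≤ g.inner (γ t) v v * (ε : ℝ) ^ 2 := mul_nonneg h2 (sq_nonneg _)
    linarith
  have h2 : ‖φ 1 - φ 0‖ₑ ≤ pathELength ((𝓡 2).prod (𝓡 3)) γ 0 1 := by
    refine (enorm_sub_le_lintegral_derivWithin_Icc_of_contDiffOn_Icc hφ1.contDiffOn
      zero_le_one).trans ?_
    rw [pathELength_eq_lintegral_mfderiv_Icc]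
    refine setLIntegral_mono' measurableSet_Icc fun t ht => ?_
    rw [(hφ2 t).differentiableAt.derivWithin (uniqueDiffOn_Icc zero_lt_one t ht)]
    exact hb t
  have h3 : ‖y.2‖ - ‖x.2‖ ≤ ‖φ 1 - φ 0‖ + ε := by
    have a1 : ‖y.2‖ ≤ φ 1 := by
      rw [hφ]
      simp only
      rw [h1]
      exact Real.le_sqrt_of_sq_le (by nlinarith [sq_nonneg (ε : ℝ)])
    have a2 : φ 0 ≤ ‖x.2‖ + ε := by
      rw [hφ]
      simp only
      rw [h0]
      refine Real.sqrt_le_iff.2 ⟨by positivity, ?_⟩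
      have : (0 : ℝ) ≤ ε := ε.2
      nlinarith [norm_nonneg x.2]
    have a3 : φ 1 - φ 0 ≤ ‖φ 1 - φ 0‖ := le_abs_self _
    linarith
  calc ENNReal.ofReal (‖y.2‖ - ‖x.2‖) ≤ ENNReal.ofReal (‖φ 1 - φ 0‖ + ε) :=
        ENNReal.ofReal_le_ofReal h3
    _ = ENNReal.ofReal ‖φ 1 - φ 0‖ + ENNReal.ofReal ε :=
        ENNReal.ofReal_add (norm_nonneg _) ε.2
    _ = ‖φ 1 - φ 0‖ₑ + ε := by rw [ofReal_norm, ENNReal.ofReal_coe_nnreal]
    _ ≤ _ := by gcongr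

theorem gdist_comm (x y : S2 × R3) : gdist g x y = gdist g y x := by
  let _ : RiemannianBundle (fun x : S2 × R3 => TangentSpace ((𝓡 2).prod (𝓡 3)) x) :=
    ⟨g.toRiemannianMetric⟩
  exact riemannianEDist_comm

theorem gdist_triangle (x y z : S2 × R3) : gdist g x z ≤ gdist g x y + gdist g y z := by
  let _ : RiemannianBundle (fun x : S2 × R3 => TangentSpace ((𝓡 2).prod (𝓡 3)) x) :=
    ⟨g.toRiemannianMetric⟩
  exact riemannianEDist_triangle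

theorem ray_le (hg : XE.Dual g (WED D)) (x : S2) (w : R3) :
    gdist g ((x, 0) : S2 × R3) ((x, w) : S2 × R3) ≤ ENNReal.ofReal ‖w‖ := by
  let _ : RiemannianBundle (fun x : S2 × R3 => TangentSpace ((𝓡 2).prod (𝓡 3)) x) :=
    ⟨g.toRiemannianMetric⟩
  change riemannianEDist ((𝓡 2).prod (𝓡 3)) ((x, 0) : S2 × R3) ((x, w) : S2 × R3) ≤ _
  obtain ⟨γ, hγ⟩ : ∃ γ : ℝ → S2 × R3, γ = fun t => (x, t • w) := ⟨_, rfl⟩
  have hs : ContDiff ℝ 1 (fun t : ℝ => t • w) := contDiff_id.smul contDiff_const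
  have hγ1 : ContMDiff 𝓘(ℝ, ℝ) ((𝓡 2).prod (𝓡 3)) 1 γ := by
    rw [hγ]
    exact contMDiff_const.prodMk (contMDiff_iff_contDiff.2 hs)
  have hd : ∀ t, mfderiv 𝓘(ℝ, ℝ) ((𝓡 2).prod (𝓡 3)) γ t (1 : ℝ) = vv (γ t) w := by
    intro t
    apply XE.d_inj (γ t)
    have h4 : MDifferentiableAt 𝓘(ℝ, ℝ) ((𝓡 2).prod (𝓡 3)) γ t := hγ1.mdifferentiableAt (by simp)
    have h3 : MDifferentiableAt ((𝓡 2).prod (𝓡 3)) 𝓘(ℝ, R3 × R3) XE.j (γ t) :=
      XE.hj.mdifferentiableAt (by simp)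
    have h5 := mfderiv_comp t h3 h4
    have e : XE.j ∘ γ = fun t : ℝ => (((x : R3), t • w) : R3 × R3) := by
      funext t
      rw [hγ]
      rfl
    rw [e] at h5
    have h6 : HasDerivAt (fun t : ℝ => (((x : R3), t • w) : R3 × R3)) (0, w) t := by
      have h7 := (hasDerivAt_const t (x : R3)).prodMk ((hasDerivAt_id t).smul_const w)
      rw [one_smul] at h7
      exact h7
    rw [mfderiv_eq_fderiv, h6.hasFDerivAt.fderiv] at h5
    have h8 := congrArg (fun L : ℝ →L[ℝ] R3 × R3 => L 1) h5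
    rw [d_vv]
    have h9 : (ContinuousLinearMap.toSpanSingleton ℝ ((0, w) : R3 × R3)) (1 : ℝ) = (0, w) := by
      simp
    exact h8.symm.trans h9
  refine (riemannianEDist_le_pathELength (γ := γ) (a := 0) (b := 1) hγ1.contMDiffOn
    (by rw [hγ]; simp) (by rw [hγ]; simp) zero_le_one).trans ?_
  rw [pathELength_eq_lintegral_mfderiv_Icc]
  calc ∫⁻ t in Icc (0 : ℝ) 1, ‖mfderiv 𝓘(ℝ, ℝ) ((𝓡 2).prod (𝓡 3)) γ t (1 : ℝ)‖ₑ
      ≤ ∫⁻ _t in Icc (0 : ℝ) 1, ENNReal.ofReal ‖w‖ := by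
        refine setLIntegral_mono' measurableSet_Icc fun t ht => ?_
        rw [hd t, ← ofReal_norm]
        apply ENNReal.ofReal_le_ofReal
        have h3 : ‖vv (γ t) w‖ = Real.sqrt (g.inner (γ t) (vv (γ t) w) (vv (γ t) w)) :=
          norm_eq_sqrt_real_inner _
        rw [h3, inner_vert hg _ _ (by
          rw [hγ]
          funext i; fin_cases i <;> simp [cx] <;> ring), d_vv]
        exact (norm_eq_sqrt_real_inner w).symm.le
    _ = ENNReal.ofReal ‖w‖ := by simp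

/-- the zero section -/
def i0 (x : S2) : S2 × R3 := (x, 0)

/-- The distance to the zero section. -/
theorem dist_soul (hg : XE.Dual g (WED D)) (z : S2 × R3) :
    ⨅ y ∈ range i0, gdist g z y = ENNReal.ofReal ‖z.2‖ := by
  apply le_antisymm
  · refine (iInf₂_le (i0 z.1) ⟨z.1, rfl⟩).trans ?_
    rw [gdist_comm]
    exact ray_le hg z.1 z.2
  · refine le_iInf₂ fun y hy => ?_
    obtain ⟨x, rfl⟩ := hy
    have h := rho_lip hg (i0 x) z
    rw [gdist_comm] at h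
    have e : ‖(i0 x).2‖ = 0 := norm_zero
    rwa [e, sub_zero] at h

theorem distSphere_eq (hg : XE.Dual g (WED D)) {r : ℝ} (hr : 0 < r) :
    distSphere g (range i0) r = {z | ‖z.2‖ = r} := by
  ext z
  have h : z ∈ distSphere g (range i0) r ↔ ⨅ y ∈ range i0, gdist g z y = ENNReal.ofReal r :=
    Iff.rfl
  rw [h, dist_soul hg, Set.mem_ofPred_eq]
  constructor
  · intro h2
    have := congrArg ENNReal.toReal h2
    rwa [ENNReal.toReal_ofReal (norm_nonneg _), ENNReal.toReal_ofReal hr.le] at this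
  · intro h2
    rw [h2]

/-- **The metric is complete.** -/
theorem complete (hg : XE.Dual g (WED D)) : CompleteMetric g := by
  intro u hu
  let _ : RiemannianBundle (fun x : S2 × R3 => TangentSpace ((𝓡 2).prod (𝓡 3)) x) :=
    ⟨g.toRiemannianMetric⟩
  have _ : IsContinuousRiemannianBundle (EuclideanSpace ℝ (Fin 2) × EuclideanSpace ℝ (Fin 3))
      (fun x : S2 × R3 => TangentSpace ((𝓡 2).prod (𝓡 3)) x) :=
    ⟨g.inner, g.contMDiff.continuous, fun _ _ _ => rfl⟩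
  obtain ⟨n0, hn0⟩ := hu 1 one_pos
  have hb : ∀ n, u (n + n0) ∈ (univ : Set S2) ×ˢ closedBall (0 : R3) (‖(u n0).2‖ + 1) := by
    intro n
    refine ⟨mem_univ _, ?_⟩
    rw [mem_closedBall_zero_iff]
    have h1 := (rho_lip hg (u n0) (u (n + n0))).trans_lt (hn0 n0 (n + n0) le_rfl (by omega))
    have h2 : ‖(u (n + n0)).2‖ - ‖(u n0).2‖ < 1 := by
      by_contra hcon
      push Not at hcon
      have h3 := ENNReal.ofReal_le_ofReal hcon
      rw [ENNReal.ofReal_one] at h3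
      exact absurd h1 (not_lt.2 h3)
    linarith
  have hK : IsCompact ((univ : Set S2) ×ˢ closedBall (0 : R3) (‖(u n0).2‖ + 1)) :=
    isCompact_univ.prod (isCompact_closedBall _ _)
  obtain ⟨z, -, φ, hφ, hlim⟩ := hK.tendsto_subseq hb
  refine ⟨z, fun s hs => ?_⟩
  obtain ⟨c, hc, hcs⟩ := setOfPred_riemannianEDist_lt_subset_nhds' ((𝓡 2).prod (𝓡 3)) hs
  obtain ⟨n1, hn1⟩ := hu (c / 2) (ENNReal.half_pos hc.ne')
  have h1 := hlim (eventually_riemannianEDist_lt ((𝓡 2).prod (𝓡 3)) z (ENNReal.half_pos hc.ne'))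
  have h2 : ∀ᶠ n in atTop, gdist g z (u (φ n + n0)) < c / 2 := h1
  obtain ⟨m, hm⟩ := (h2.and (eventually_ge_atTop n1)).exists
  have hm1 : n1 ≤ φ m + n0 := hm.2.trans ((hφ.id_le m).trans (Nat.le_add_right _ _))
  refine mem_map.2 (mem_of_superset (Ici_mem_atTop n1) fun n hn => hcs ?_)
  change gdist g z (u n) < c
  calc gdist g z (u n) ≤ gdist g z (u (φ m + n0)) + gdist g (u (φ m + n0)) (u n) :=
        gdist_triangle _ _ _
    _ < c / 2 + c / 2 := ENNReal.add_lt_add hm.1 (hn1 _ _ hm1 hn)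
    _ = c := ENNReal.add_halves c

end Pool.Agent.Y490.WH
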