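import Pool.Agent.H878R5.MF.Link
import Pool.Agent.H893R5.HO.SphEmb
import Mathlib

/-!
The manifold `S² × ℝ³` as an immersed manifold in `ℝ³ × ℝ³`, with the action of the Lie algebra
`ℝ³ × ℝ³` by rotations.
-/

open Bundle Manifold ContDiff ContinuousLinearMap Filter VectorField Metric
open scoped Topology RealInnerProductSpace

set_option autoImplicit false
set_option synthInstance.maxHeartbeats 400000
set_option maxHeartbeats 4000000
set_option linter.unusedSectionVars false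

noncomputable section

namespace Pool.Agent.Y490.WH

open Pool.Agent.H821R2 Pool.Agent.H821R3 H907H Pool.Agent.H893R5.HO HopfPP Pool.Agent.H878R5

/-- `ℝ³` -/
abbrev R3 : Type := EuclideanSpace ℝ (Fin 3)

instance finR3 : Fact (Module.finrank ℝ R3 = 2 + 1) := ⟨by simp⟩

/-- the two-sphere -/
abbrev S2 : Type := sphere (0 : R3) 1

/-- the inclusion of `S² × ℝ³` -/
def ej (p : S2 × R3) : R3 × R3 := ((p.1 : R3), p.2)

theorem smooth_ej : ContMDiff ((𝓡 2).prod (𝓡 3)) 𝓘(ℝ, R3 × R3) ∞ ej :=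
  ((contMDiff_coe_sphere (m := ∞) (E := R3) (n := 2)).comp contMDiff_fst).prodMk_space
    contMDiff_snd

theorem d_ej (p : S2 × R3) (v : TangentSpace ((𝓡 2).prod (𝓡 3)) p) :
    mvfderiv ((𝓡 2).prod (𝓡 3)) ej p v =
      (mvfderiv (𝓡 2) (fun x : sphere (0 : R3) 1 => (x : R3)) p.1 (v.1 : EuclideanSpace ℝ (Fin 2)),
       (v.2 : EuclideanSpace ℝ (Fin 3))) := by
  have h : MDifferentiableAt ((𝓡 2).prod (𝓡 3)) 𝓘(ℝ, R3 × R3) ej p :=
    smooth_ej.mdifferentiableAt (by simp)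
  have h1 := d_clm' (ContinuousLinearMap.fst ℝ R3 R3) h v
  have h2 := d_clm' (ContinuousLinearMap.snd ℝ R3 R3) h v
  refine Prod.ext ?_ ?_
  · refine h1.symm.trans ?_
    have k1 : MDifferentiableAt (𝓡 2) 𝓘(ℝ, R3) (fun x : sphere (0 : R3) 1 => (x : R3)) p.1 :=
      (contMDiff_coe_sphere (m := ∞)).mdifferentiableAt (by simp)
    have a2 := mfderiv_comp p (f := (Prod.fst : S2 × R3 → sphere (0 : R3) 1))
      (g := fun x : sphere (0 : R3) 1 => (x : R3))
      (I := (𝓡 2).prod (𝓡 3)) (I' := 𝓡 2) (I'' := 𝓘(ℝ, R3)) k1 mdifferentiableAt_fst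
    rw [mfderiv_fst] at a2
    exact congrArg (fun L : (EuclideanSpace ℝ (Fin 2) × EuclideanSpace ℝ (Fin 3)) →L[ℝ] R3 =>
      L v) a2
  · refine h2.symm.trans ?_
    have a2 : mfderiv ((𝓡 2).prod (𝓡 3)) (𝓡 3) (Prod.snd : S2 × R3 → R3) p =
      ContinuousLinearMap.snd ℝ (EuclideanSpace ℝ (Fin 2)) (EuclideanSpace ℝ (Fin 3)) :=
      mfderiv_snd
    exact congrArg (fun L : (EuclideanSpace ℝ (Fin 2) × EuclideanSpace ℝ (Fin 3)) →L[ℝ] R3 =>
      L v) a2

/-- the projection to the tangent space -/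
def eP (z : R3 × R3) : R3 × R3 →L[ℝ] R3 × R3 :=
  ContinuousLinearMap.id ℝ _ -
    ((innerSL ℝ z.1).comp (ContinuousLinearMap.fst ℝ R3 R3)).smulRight ((z.1, 0) : R3 × R3)

theorem eP_apply (z a : R3 × R3) : eP z a = (a.1 - ⟪z.1, a.1⟫ • z.1, a.2) := by
  have h : eP z a = a - ⟪z.1, a.1⟫ • ((z.1, 0) : R3 × R3) := rfl
  rw [h]
  refine Prod.ext ?_ ?_
  · simp
  · simp

theorem smooth_eP : ContDiff ℝ ∞ eP := by
  have h1 : ContDiff ℝ ∞ (fun z : R3 × R3 =>
      (innerSL ℝ z.1).comp (ContinuousLinearMap.fst ℝ R3 R3)) :=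
    ((innerSL ℝ (E := R3)).contDiff.comp contDiff_fst).clm_comp contDiff_const
  have h3 : ContDiff ℝ ∞ (fun z : R3 × R3 => ((z.1, 0) : R3 × R3)) :=
    contDiff_fst.prodMk contDiff_const
  exact contDiff_const.sub (h1.smulRight h3)

/-- `S² × ℝ³` as an immersed manifold. -/
def XE : Emb ((𝓡 2).prod (𝓡 3)) (S2 × R3) (R3 × R3) where
  B := sB R3 R3
  Bsymm a b := by
    rw [sB_apply, sB_apply, real_inner_comm, real_inner_comm b.2]
  Bpos a ha := by
    rw [sB_apply]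
    by_contra hcon
    push Not at hcon
    have h1 : 0 ≤ ⟪a.1, a.1⟫ := real_inner_self_nonneg
    have h2 : 0 ≤ ⟪a.2, a.2⟫ := real_inner_self_nonneg
    have h3 : ⟪a.1, a.1⟫ = 0 := by linarith
    have h4 : ⟪a.2, a.2⟫ = 0 := by linarith
    exact ha (Prod.ext (inner_self_eq_zero.1 h3) (inner_self_eq_zero.1 h4))
  j := ej
  hj := smooth_ej
  inj p v h := by
    rw [d_ej] at h
    have h1 := congrArg Prod.fst h
    have h2 := congrArg Prod.snd h
    have l1 : (v.1 : EuclideanSpace ℝ (Fin 2)) = 0 :=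
      injective_mvfderiv_subtypeVal_sphere (E := R3) (n := 2) p.1 (h1.trans (map_zero _).symm)
    exact Prod.ext l1 h2
  P := eP
  hP := smooth_eP
  Psymm p a b := by
    rw [eP_apply, eP_apply, sB_apply, sB_apply]
    simp only [inner_sub_left, inner_sub_right, real_inner_smul_left, real_inner_smul_right]
    rw [real_inner_comm (ej p).1 a.1]
    ring
  Pd p v := by
    rw [d_ej, eP_apply]
    have h1 : ⟪(p.1 : R3), mvfderiv (𝓡 2) (fun x : sphere (0 : R3) 1 => (x : R3)) p.1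
      (v.1 : EuclideanSpace ℝ (Fin 2))⟫ = 0 := by
      have h : mvfderiv (𝓡 2) (fun x : sphere (0 : R3) 1 => (x : R3)) p.1
          (v.1 : EuclideanSpace ℝ (Fin 2)) ∈ (ℝ ∙ (p.1 : R3))ᗮ := by
        rw [← range_mvfderiv_subtypeVal (E := R3) (n := 2) p.1]
        exact ⟨_, rfl⟩
      exact Submodule.mem_orthogonal_singleton_iff_inner_right.1 h
    refine Prod.ext ?_ rfl
    change _ - ⟪(p.1 : R3), _⟫ • (p.1 : R3) = _
    rw [h1, zero_smul, sub_zero]
  rng p a := by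
    have h1 : a.1 - ⟪(p.1 : R3), a.1⟫ • (p.1 : R3) ∈ (ℝ ∙ (p.1 : R3))ᗮ :=
      Submodule.mem_orthogonal_singleton_iff_inner_right.2 (by
        rw [inner_sub_right, real_inner_smul_right, inner_self_sph]
        ring)
    rw [← range_mvfderiv_subtypeVal (E := R3) (n := 2) p.1] at h1
    obtain ⟨v, hv⟩ := h1
    refine ⟨((v : EuclideanSpace ℝ (Fin 2)), (a.2 : EuclideanSpace ℝ (Fin 3))), ?_⟩
    refine (d_ej p _).trans ?_
    rw [eP_apply]
    exact Prod.ext hv rfl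

theorem XE_B (a b : R3 × R3) : XE.B a b = ⟪a.1, b.1⟫ + ⟪a.2, b.2⟫ := rfl

theorem XE_j (p : S2 × R3) : XE.j p = ((p.1 : R3), p.2) := rfl

theorem XE_P (z a : R3 × R3) : XE.P z a = (a.1 - ⟪z.1, a.1⟫ • z.1, a.2) := eP_apply z a

theorem XE_d (p : S2 × R3) (v : TangentSpace ((𝓡 2).prod (𝓡 3)) p) :
    XE.d p v =
      (mvfderiv (𝓡 2) (fun x : sphere (0 : R3) 1 => (x : R3)) p.1 (v.1 : EuclideanSpace ℝ (Fin 2)),
       (v.2 : EuclideanSpace ℝ (Fin 3))) := d_ej p v

/-- `S² × S²` as an immersed manifold. -/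
def XS : Emb ((𝓡 2).prod (𝓡 2)) (SS R3 R3) (R3 × R3) := sph 2 2 R3 R3

theorem XS_B (a b : R3 × R3) : XS.B a b = ⟪a.1, b.1⟫ + ⟪a.2, b.2⟫ := rfl

theorem XS_j (p : SS R3 R3) : XS.j p = ((p.1 : R3), (p.2 : R3)) := rfl

theorem XS_P (z a : R3 × R3) : XS.P z a = (a.1 - ⟪z.1, a.1⟫ • z.1, a.2 - ⟪z.2, a.2⟫ • z.2) := by
  have h : XS.P z a = a - sN z a := rfl
  rw [h, sN_apply]
  rfl

/-- cross product of coordinates as a vector -/
def cr3 (w : V ℝ) (x : R3) : R3 := WithLp.toLp 2 (cx w x.ofLp)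

/-- the action of the Lie algebra -/
def act : V6 ℝ →L[ℝ] (R3 × R3) →L[ℝ] (R3 × R3) :=
  bil (LinearMap.mk₂ ℝ (fun w z => ((cr3 w.1 z.1, cr3 w.2 z.2) : R3 × R3))
    (fun a b c => by
      refine Prod.ext ?_ ?_
      · ext i; fin_cases i <;> simp [cr3, cx] <;> ring
      · ext i; fin_cases i <;> simp [cr3, cx] <;> ring)
    (fun r a c => by
      refine Prod.ext ?_ ?_
      · ext i; fin_cases i <;> simp [cr3, cx] <;> ring
      · ext i; fin_cases i <;> simp [cr3, cx] <;> ring)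
    (fun a b c => by
      refine Prod.ext ?_ ?_
      · ext i; fin_cases i <;> simp [cr3, cx] <;> ring
      · ext i; fin_cases i <;> simp [cr3, cx] <;> ring)
    (fun r a c => by
      refine Prod.ext ?_ ?_
      · ext i; fin_cases i <;> simp [cr3, cx] <;> ring
      · ext i; fin_cases i <;> simp [cr3, cx] <;> ring))

theorem act_apply (w : V6 ℝ) (z : R3 × R3) : act w z = (cr3 w.1 z.1, cr3 w.2 z.2) := rfl

theorem inner_R3 (x y : R3) : ⟪x, y⟫ = dt x.ofLp y.ofLp := by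
  simp [PiLp.inner_apply, Fin.sum_univ_three, dt]
  ring

theorem inner_cr3 (w : V ℝ) (x : R3) : ⟪x, cr3 w x⟫ = 0 := by
  rw [inner_R3]
  simp [cr3, cx, dt]
  ring

theorem act_lie (h t : V6 ℝ) (z : R3 × R3) :
    act h (act t z) - act t (act h z) = act (cx6 h t) z := by
  rw [act_apply, act_apply, act_apply, act_apply, act_apply]
  refine Prod.ext ?_ ?_
  · ext i; fin_cases i <;> simp [cr3, cx, cx6] <;> ring
  · ext i; fin_cases i <;> simp [cr3, cx, cx6] <;> ring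

/-- the action on `S² × ℝ³` -/
def YE : LA XE where
  E := act
  lie := act_lie
  tan h p := by
    rw [XE_P, act_apply]
    refine Prod.ext ?_ rfl
    simp only [inner_cr3, zero_smul, sub_zero]

/-- the action on `S² × S²` -/
def YS : LA XS where
  E := act
  lie := act_lie
  tan h p := by
    rw [XS_P, act_apply]
    refine Prod.ext ?_ ?_
    · simp only [inner_cr3, zero_smul, sub_zero]
    · simp only [inner_cr3, zero_smul, sub_zero]

theorem YE_E (w : V6 ℝ) (z : R3 × R3) : YE.E w z = (cr3 w.1 z.1, cr3 w.2 z.2) := rfl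

theorem YS_E (w : V6 ℝ) (z : R3 × R3) : YS.E w z = (cr3 w.1 z.1, cr3 w.2 z.2) := rfl

/-- the momentum in coordinates -/
theorem YE_J (z a : R3 × R3) : YE.J z a = (cx z.1.ofLp a.1.ofLp, cx z.2.ofLp a.2.ofLp) := by
  apply dt6_ext
  intro w
  rw [YE.dt6_J, XE_B, YE_E, inner_R3, inner_R3]
  simp [dt6, dt, cr3, cx]
  ring

theorem YS_J (z a : R3 × R3) : YS.J z a = (cx z.1.ofLp a.1.ofLp, cx z.2.ofLp a.2.ofLp) := by
  apply dt6_ext
  intro w
  rw [YS.dt6_J, XS_B, YS_E, inner_R3, inner_R3]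
  simp [dt6, dt, cr3, cx]
  ring

/-- projection to the coordinates of the first factor -/
def pj : (R3 × R3) →L[ℝ] V ℝ :=
  LinearMap.toContinuousLinearMap
    { toFun := fun z => z.1.ofLp
      map_add' := fun _ _ => rfl
      map_smul' := fun _ _ => rfl }

theorem pj_apply (z : R3 × R3) : pj z = z.1.ofLp := rfl

theorem pj_YE (w : V6 ℝ) (z : R3 × R3) : pj (YE.E w z) = cx w.1 (pj z) := rfl

theorem pj_YS (w : V6 ℝ) (z : R3 × R3) : pj (YS.E w z) = cx w.1 (pj z) := rfl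

theorem dt_unit (x : S2) : dt (x : R3).ofLp (x : R3).ofLp = 1 := by
  have h := inner_self_sph x
  rw [inner_R3] at h
  exact h

end Pool.Agent.Y490.WH
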