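import Pool.Agent.Y490.WH.Ind

/-!
Conclusion: the weak Hopf conjecture fails on `S² × ℝ³`.
-/

open Bundle Manifold ContDiff Filter Metric Set
open scoped Topology RealInnerProductSpace ENNReal

set_option autoImplicit false
set_option synthInstance.maxHeartbeats 400000
set_option maxHeartbeats 4000000
set_option linter.unusedSectionVars false

noncomputable section

namespace Pool.Agent.Y490.WH

open Pool.Agent.H821R2 Pool.Agent.H821R3 H907H Pool.Agent.H893R5.HO HopfPP Pool.Agent.H878R5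

variable {D : Dat ℝ}
  {g : ContMDiffRiemannianMetric ((𝓡 2).prod (𝓡 3)) ∞
    (EuclideanSpace ℝ (Fin 2) × EuclideanSpace ℝ (Fin 3))
    (fun x : S2 × R3 => TangentSpace ((𝓡 2).prod (𝓡 3)) x)}

theorem nonnegE (hD : Good D) (hg : XE.Dual g (WED D)) : NonnegativelyCurved g := by
  obtain ⟨cov, R, h, hR⟩ := Emb.exists_cov (comE hD) hg
  refine ⟨⟨cov, R, h, hR⟩, ?_⟩
  intro cov R h hR p u v _
  obtain ⟨a, b, γ, -, -, -, -, -, hs⟩ := sec_covec (comE hD) hg h hR p u v
  rw [hs]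
  exact Pexp_nonneg hD p a b γ

theorem soul (hD : Good D) (hg : XE.Dual g (WED D)) : IsSoul g (𝓡 2) i0 where
  compact := inferInstance
  connected := S23.connected_sphere 2 (by norm_num)
  boundaryless := inferInstance
  embedded := emb_i0
  totallyGeodesic := totallyGeodesic hD hg
  totallyConvex := totallyConvex hD hg
  normal := ⟨Phi, emb_Phi, range_Phi hg⟩

theorem tubes (hD : Good D) (hg : XE.Dual g (WED D)) {r : ℝ} (hr : 0 < r) :
    ∃ h : ContMDiffRiemannianMetric ((𝓡 2).prod (𝓡 2)) ∞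
      (EuclideanSpace ℝ (Fin 2) × EuclideanSpace ℝ (Fin 2))
      (fun x : SS R3 R3 => TangentSpace ((𝓡 2).prod (𝓡 2)) x),
      range (tube r) = distSphere g (range i0) r ∧ IsInduced g h (tube r) ∧
        PositivelyCurved h := by
  have hc : 0 ≤ (r ^ 2)⁻¹ := by positivity
  obtain ⟨h, hh⟩ := Emb.exists_metric (comS hD hc)
  exact ⟨h, range_tube hg hr, induced hD hg hr hh, positiveS hD hc hh⟩

theorem main :
    (∃ g : MetricSnRk 2 3, ZeroSectionSoul 2 3 g ∧ AllTubesPositive 2 2 g) ∧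
    ¬ WeakHopfConjecture := by
  obtain ⟨D, hD⟩ := exists_good
  obtain ⟨g, hg⟩ := Emb.exists_metric (comE hD)
  refine ⟨⟨g, ⟨complete hg, nonnegE hD hg, soul hD hg⟩, fun r hr => ?_⟩, ?_⟩
  · obtain ⟨h, h1, h2, h3⟩ := tubes hD hg hr
    exact ⟨h1, h, h2, h3⟩
  intro hconj
  obtain ⟨r₀, hr₀, H⟩ := hconj 2 3 (by norm_num) (by norm_num) g (complete hg) (nonnegE hD hg)
    _ _ (𝓡 2) S2 i0 (soul hD hg)
  obtain ⟨h, h1, h2, h3⟩ := tubes hD hg (half_pos hr₀)
  refine H (r₀ / 2) (half_pos hr₀) (half_lt_self hr₀) ?_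
  refine ⟨EuclideanSpace ℝ (Fin 2) × EuclideanSpace ℝ (Fin 2), inferInstance, inferInstance,
    _, inferInstance, (𝓡 2).prod (𝓡 2), S2 × S2, inferInstance, inferInstance, inferInstance,
    tube (r₀ / 2), h, ?_, inferInstance, inferInstance, inferInstance, h1, h2, h3⟩
  simp

end Pool.Agent.Y490.WH
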