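import Pool.Agent.Y490.WH.Nor

/-!
The distance tubes about the zero section and their induced metrics.
-/

open Bundle Manifold ContDiff ContinuousLinearMap Filter VectorField Metric Set MeasureTheory
open scoped Topology RealInnerProductSpace ENNReal

set_option autoImplicit false
set_option synthInstance.maxHeartbeats 400000
set_option maxHeartbeats 4000000
set_option linter.unusedSectionVars false

noncomputable section

namespace Pool.Agent.Y490.WH

open Pool.Agent.H821R2 Pool.Agent.H821R3 H907H Pool.Agent.H893R5.HO HopfPP Pool.Agent.H878R5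

variable {D : Dat ℝ}
  {g : ContMDiffRiemannianMetric ((𝓡 2).prod (𝓡 3)) ∞
    (EuclideanSpace ℝ (Fin 2) × EuclideanSpace ℝ (Fin 3))
    (fun x : S2 × R3 => TangentSpace ((𝓡 2).prod (𝓡 3)) x)}

/-- the parametrization of the tube of radius `r` -/
def tube (r : ℝ) (p : SS R3 R3) : S2 × R3 := (p.1, r • (p.2 : R3))

theorem smooth_tube (r : ℝ) : ContMDiff ((𝓡 2).prod (𝓡 2)) ((𝓡 2).prod (𝓡 3)) ∞ (tube r) := by
  have h1 : ContMDiff ((𝓡 2).prod (𝓡 2)) 𝓘(ℝ, R3) ∞ (fun p : SS R3 R3 => (p.2 : R3)) :=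
    (contMDiff_coe_sphere (m := ∞) (E := R3) (n := 2)).comp contMDiff_snd
  have h2 : ContDiff ℝ ∞ (fun w : R3 => r • w) := contDiff_id.const_smul r
  exact contMDiff_fst.prodMk (h2.contMDiff.comp h1)

/-- the linear map of the ambient space -/
def Lr (r : ℝ) : (R3 × R3) →L[ℝ] (R3 × R3) :=
  (ContinuousLinearMap.id ℝ R3).prodMap (r • ContinuousLinearMap.id ℝ R3)

theorem Lr_apply (r : ℝ) (z : R3 × R3) : Lr r z = (z.1, r • z.2) := rfl

theorem j_tube (r : ℝ) (p : SS R3 R3) : XE.j (tube r p) = Lr r (XS.j p) := rfl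

theorem d_tube (r : ℝ) (p : SS R3 R3) (v : TangentSpace ((𝓡 2).prod (𝓡 2)) p) :
    XE.d (tube r p) (mfderiv ((𝓡 2).prod (𝓡 2)) ((𝓡 2).prod (𝓡 3)) (tube r) p v) =
      Lr r (XS.d p v) := by
  have h1 : MDifferentiableAt ((𝓡 2).prod (𝓡 2)) ((𝓡 2).prod (𝓡 3)) (tube r) p :=
    (smooth_tube r).mdifferentiableAt (by simp)
  have h2 : MDifferentiableAt ((𝓡 2).prod (𝓡 3)) 𝓘(ℝ, R3 × R3) XE.j (tube r p) :=
    XE.hj.mdifferentiableAt (by simp)
  have h3 := mfderiv_comp p h2 h1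
  have e : XE.j ∘ tube r = fun q => Lr r (XS.j q) := by
    funext q
    exact j_tube r q
  rw [e] at h3
  have h4 := XS.d_comp p ((Lr r).differentiableAt (x := XS.j p)) v
  rw [ContinuousLinearMap.fderiv] at h4
  rw [← h4]
  have h5 := congrArg (fun L => L v) h3
  exact h5.symm

theorem emb_tube {r : ℝ} (hr : 0 < r) :
    SmoothEmb ((𝓡 2).prod (𝓡 2)) ((𝓡 2).prod (𝓡 3)) (tube r) where
  smooth := smooth_tube r
  immersion p := by
    intro u v huv
    apply XS.d_inj p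
    have h1 := d_tube r p u
    rw [huv, d_tube, Lr_apply, Lr_apply] at h1
    have h2 := congrArg Prod.fst h1
    have h3 := congrArg Prod.snd h1
    exact Prod.ext h2.symm (smul_right_injective R3 hr.ne' h3).symm
  embedding := by
    refine ((smooth_tube r).continuous.isClosedEmbedding ?_).isEmbedding
    intro p q hpq
    have h2 := congrArg Prod.fst hpq
    have h3 := congrArg Prod.snd hpq
    exact Prod.ext h2 (Subtype.ext (smul_right_injective R3 hr.ne' h3))

theorem range_tube (hg : XE.Dual g (WED D)) {r : ℝ} (hr : 0 < r) :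
    range (tube r) = distSphere g (range i0) r := by
  rw [distSphere_eq hg hr]
  ext z
  constructor
  · rintro ⟨p, rfl⟩
    change ‖r • (p.2 : R3)‖ = r
    rw [norm_smul, norm_eq_of_mem_sphere, mul_one, Real.norm_of_nonneg hr.le]
  · intro hz
    have hz' : ‖z.2‖ = r := hz
    refine ⟨(z.1, ⟨r⁻¹ • z.2, ?_⟩), ?_⟩
    · rw [mem_sphere_zero_iff_norm, norm_smul, hz', norm_inv, Real.norm_of_nonneg hr.le,
        inv_mul_cancel₀ hr.ne']
    · refine Prod.ext rfl ?_
      change r • (r⁻¹ • z.2) = z.2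
      rw [smul_smul, mul_inv_cancel₀ hr.ne', one_smul]

theorem W_tube (D : Dat ℝ) {r : ℝ} (hr : 0 < r) (p : SS R3 R3) (a : R3 × R3)
    (ha : XS.P (XS.j p) a = a) :
    WED D (XE.j (tube r p)) ((a.1, r⁻¹ • a.2) : R3 × R3) =
      Lr r (WSD D ((r ^ 2)⁻¹) (XS.j p) a) := by
  have hr0 : r ≠ 0 := hr.ne'
  have hJ : YE.J (XE.j (tube r p)) ((a.1, r⁻¹ • a.2) : R3 × R3) = YS.J (XS.j p) a := by
    rw [YE_J, YS_J, j_tube]
    refine Prod.ext rfl ?_
    simp only [Lr_apply]
    have e : ∀ y c : R3, cx (r • y).ofLp (r⁻¹ • c).ofLp = cx y.ofLp c.ofLp := by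
      intro y c
      funext i; fin_cases i <;> simp [cx] <;> field_simp
    exact e _ _
  have hx : pj (XE.j (tube r p)) = pj (XS.j p) := rfl
  rw [WED_apply, WSD_apply, hJ, hx, YE_E, YS_E, Pi2_apply, Lr_apply, j_tube, Lr_apply]
  have e0 : ∀ (u : V6 ℝ) (c : ℝ) (w : V ℝ), (u + c • ((0, w) : V6 ℝ)).1 = u.1 := fun u c w => by
    rw [Prod.fst_add, Prod.smul_fst, smul_zero, add_zero]
  have e1 : ∀ (u : V6 ℝ) (c : ℝ) (w : V ℝ), (u + c • ((0, w) : V6 ℝ)).2 = u.2 + c • w :=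
    fun u c w => rfl
  rw [e0, e1]
  refine Prod.ext (by simp) ?_
  have h2 := tan_perpS2 ha
  have h1 := dt_unit p.2
  have hy : (XS.j p).2 = (p.2 : R3) := rfl
  have hJ2 : (YS.J (XS.j p) a).2 = cx (p.2 : R3).ofLp a.2.ofLp := by rw [YS_J]; rfl
  rw [Prod.snd_add, hJ2]
  simp only [hy]
  generalize (KK D (pj (XS.j p)) (YS.J (XS.j p) a)).2 = u
  generalize (p.2 : R3) = y at *
  generalize a.2 = b at *
  simp only [dt] at h1 h2
  ext i
  fin_cases i
  · simp [cr3, cx]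
    field_simp
    linear_combination (-(b.ofLp 0)) * h1 + y.ofLp 0 * h2
  · simp [cr3, cx]
    field_simp
    linear_combination (-(b.ofLp 1)) * h1 + y.ofLp 1 * h2
  · simp [cr3, cx]
    field_simp
    linear_combination (-(b.ofLp 2)) * h1 + y.ofLp 2 * h2

/-- **The metric induced on the tube of radius `r`.** -/
theorem induced (hD : Good D) (hg : XE.Dual g (WED D)) {r : ℝ} (hr : 0 < r)
    {h : ContMDiffRiemannianMetric ((𝓡 2).prod (𝓡 2)) ∞
      (EuclideanSpace ℝ (Fin 2) × EuclideanSpace ℝ (Fin 2))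
      (fun x : SS R3 R3 => TangentSpace ((𝓡 2).prod (𝓡 2)) x)}
    (hh : XS.Dual h (WSD D ((r ^ 2)⁻¹))) : IsInduced g h (tube r) := by
  refine ⟨emb_tube hr, fun q u v => ?_⟩
  have hc : 0 ≤ (r ^ 2)⁻¹ := by positivity
  obtain ⟨a, ha, haW⟩ := Emb.exists_covec (comS hD hc) hh q u
  rw [hh q a u haW.symm v]
  rw [hg (tube r q) ((a.1, r⁻¹ • a.2) : R3 × R3) _ (by rw [d_tube, ← haW, W_tube D hr q a ha]),
    d_tube, XE_B, XS_B, Lr_apply]
  simp only [real_inner_smul_left, real_inner_smul_right]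
  field_simp

end Pool.Agent.Y490.WH
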