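import Pool.Agent.Y490.WH.Soul

/-!
The normal bundle of the zero section; the distance tubes and their induced metrics.
-/

open Bundle Manifold ContDiff ContinuousLinearMap Filter VectorField Metric Set MeasureTheory
open scoped Topology RealInnerProductSpace ENNReal

set_option autoImplicit false
set_option synthInstance.maxHeartbeats 400000
set_option maxHeartbeats 4000000
set_option linter.unusedSectionVars false

noncomputable section

namespace Pool.Agent.Y490.WH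

open Pool.Agent.H821R2 Pool.Agent.H821R3 H907H Pool.Agent.H893R5.HO HopfPP Pool.Agent.H878R5

variable {D : Dat ℝ}
  {g : ContMDiffRiemannianMetric ((𝓡 2).prod (𝓡 3)) ∞
    (EuclideanSpace ℝ (Fin 2) × EuclideanSpace ℝ (Fin 3))
    (fun x : S2 × R3 => TangentSpace ((𝓡 2).prod (𝓡 3)) x)}

/-- the identification of `S² × ℝ³` with the normal bundle of the zero section -/
def Phi (p : S2 × R3) : TangentBundle ((𝓡 2).prod (𝓡 3)) (S2 × R3) := ⟨i0 p.1, vv (i0 p.1) p.2⟩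

theorem smooth_Phi2 : ContMDiff ((𝓡 2).prod (𝓡 3)) (𝓡 3).tangent ∞
    (fun p : S2 × R3 => (⟨(0 : R3), (p.2 : EuclideanSpace ℝ (Fin 3))⟩ :
      TangentBundle (𝓡 3) R3)) := by
  intro p
  rw [contMDiffAt_totalSpace]
  refine ⟨contMDiffAt_const, ?_⟩
  have h : ContMDiffAt ((𝓡 2).prod (𝓡 3)) (𝓡 3) ∞ (Prod.snd : S2 × R3 → R3) p := contMDiffAt_snd
  refine h.congr_of_eventuallyEq (Eventually.of_forall fun q => ?_)
  simp

theorem smooth_Phi : ContMDiff ((𝓡 2).prod (𝓡 3)) ((𝓡 2).prod (𝓡 3)).tangent ∞ Phi := by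
  have h1 : ContMDiff ((𝓡 2).prod (𝓡 3)) (𝓡 2).tangent ∞
      (fun p : S2 × R3 => (zeroSection (EuclideanSpace ℝ (Fin 2))
        (TangentSpace (𝓡 2) : S2 → Type _) p.1)) :=
    (Bundle.contMDiff_zeroSection ℝ (TangentSpace (𝓡 2) : S2 → Type _)).comp contMDiff_fst
  exact contMDiff_equivTangentBundleProd_symm.comp (h1.prodMk smooth_Phi2)

/-- the left inverse -/
def Psi (ξ : TangentBundle ((𝓡 2).prod (𝓡 3)) (S2 × R3)) : S2 × R3 :=
  (ξ.1.1, (ξ.2.2 : EuclideanSpace ℝ (Fin 3)))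

theorem smooth_Psi : ContMDiff ((𝓡 2).prod (𝓡 3)).tangent ((𝓡 2).prod (𝓡 3)) ∞ Psi := by
  have h1 : ContMDiff ((𝓡 2).prod (𝓡 3)).tangent ((𝓡 2).prod (𝓡 3)) ∞
      (fun ξ : TangentBundle ((𝓡 2).prod (𝓡 3)) (S2 × R3) => ξ.1) :=
    Bundle.contMDiff_proj _
  have h2 : ContMDiff ((𝓡 2).prod (𝓡 3)).tangent (𝓡 2) ∞
      (fun ξ : TangentBundle ((𝓡 2).prod (𝓡 3)) (S2 × R3) => ξ.1.1) := contMDiff_fst.comp h1
  have h3 : ContMDiff ((𝓡 2).prod (𝓡 3)).tangent ((𝓡 2).tangent.prod (𝓡 3).tangent) ∞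
      (equivTangentBundleProd (𝓡 2) S2 (𝓡 3) R3) := contMDiff_equivTangentBundleProd
  have h4 : ContMDiff ((𝓡 2).prod (𝓡 3)).tangent (𝓡 3).tangent ∞
      (fun ξ => (equivTangentBundleProd (𝓡 2) S2 (𝓡 3) R3 ξ).2) := contMDiff_snd.comp h3
  have h5 := (contMDiff_snd_tangentBundle_modelSpace R3 (𝓡 3) (n := ∞)).comp h4
  exact h2.prodMk h5

theorem Psi_Phi (p : S2 × R3) : Psi (Phi p) = p := rfl

theorem emb_Phi : SmoothEmb ((𝓡 2).prod (𝓡 3)) ((𝓡 2).prod (𝓡 3)).tangent Phi :=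
  SmoothEmb.of_leftInverse smooth_Phi smooth_Psi Psi_Phi

theorem range_Phi (hg : XE.Dual g (WED D)) : range Phi = normalBundle g (𝓡 2) i0 := by
  have c0 : ∀ (x : S2) (w : R3), cx (i0 x).2.ofLp w.ofLp = 0 := fun x w => by
    funext i; fin_cases i <;> simp [cx, i0]
  have orth : ∀ (x : S2) (w : R3) (u : TangentSpace (𝓡 2) x),
      g.inner (i0 x) (vv (i0 x) w) (mfderiv (𝓡 2) ((𝓡 2).prod (𝓡 3)) i0 x u) = 0 := by
    intro x w u
    rw [inner_vert hg _ _ (c0 x w), (mem_range_i0 x _).1 ⟨u, rfl⟩, inner_zero_right]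
  ext ξ
  constructor
  · rintro ⟨p, rfl⟩
    exact ⟨p.1, vv (i0 p.1) p.2, rfl, orth p.1 p.2⟩
  · rintro ⟨x, v, rfl, hv⟩
    refine ⟨(x, (v.2 : EuclideanSpace ℝ (Fin 3))), ?_⟩
    obtain ⟨t, ht⟩ : ∃ t, t = mfderiv (𝓡 2) ((𝓡 2).prod (𝓡 3)) i0 x
      (v.1 : EuclideanSpace ℝ (Fin 2)) := ⟨_, rfl⟩
    have h1 : v = t + vv (i0 x) (v.2 : EuclideanSpace ℝ (Fin 3)) := by
      rw [ht]
      have e := mfderiv_i0 x (v.1 : EuclideanSpace ℝ (Fin 2))
      have e2 : ((v.1 : EuclideanSpace ℝ (Fin 2)), (v.2 : EuclideanSpace ℝ (Fin 3))) =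
          (((v.1 : EuclideanSpace ℝ (Fin 2)), (0 : EuclideanSpace ℝ (Fin 3))) :
            EuclideanSpace ℝ (Fin 2) × EuclideanSpace ℝ (Fin 3)) +
          ((0 : EuclideanSpace ℝ (Fin 2)), (v.2 : EuclideanSpace ℝ (Fin 3))) := by
        rw [Prod.mk_add_mk, add_zero, zero_add]
      exact e2.trans (congrArg (fun y : EuclideanSpace ℝ (Fin 2) × EuclideanSpace ℝ (Fin 3) =>
        y + ((0 : EuclideanSpace ℝ (Fin 2)), (v.2 : EuclideanSpace ℝ (Fin 3)))) e.symm)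
    have h2 : g.inner (i0 x) v t = 0 := by rw [ht]; exact hv _
    have h3 : g.inner (i0 x) (vv (i0 x) (v.2 : EuclideanSpace ℝ (Fin 3))) t = 0 := by
      rw [ht]; exact orth x _ _
    have h4 : g.inner (i0 x) t t = 0 := by
      have h5 : g.inner (i0 x) (t + vv (i0 x) (v.2 : EuclideanSpace ℝ (Fin 3))) t = 0 := by
        rw [← h1]; exact h2
      rw [map_add, add_apply, h3, add_zero] at h5
      exact h5
    have h5 : t = 0 := by
      by_contra hne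
      exact absurd h4 (g.pos (i0 x) t hne).ne'
    rw [h5, zero_add] at h1
    change (⟨i0 x, vv (i0 x) (v.2 : EuclideanSpace ℝ (Fin 3))⟩ :
      TangentBundle ((𝓡 2).prod (𝓡 3)) (S2 × R3)) = ⟨i0 x, v⟩
    rw [← h1]

end Pool.Agent.Y490.WH
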