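import Pool.Agent.Y490.WH.Curv
import Pool.Agent.H878R5.S23.Yes

/-!
Nonnegative curvature on `S² × ℝ³` and positive curvature on `S² × S²` for good data.
-/

open Bundle Manifold ContDiff ContinuousLinearMap Filter VectorField Metric
open scoped Topology RealInnerProductSpace

set_option autoImplicit false
set_option synthInstance.maxHeartbeats 400000
set_option maxHeartbeats 4000000
set_option linter.unusedSectionVars false

noncomputable section

namespace Pool.Agent.Y490.WH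

open Pool.Agent.H821R2 Pool.Agent.H821R3 H907H Pool.Agent.H893R5.HO HopfPP Pool.Agent.H878R5

theorem PP_zero (D : Dat ℝ) (x : V ℝ) (α Γ : V6 ℝ) :
    PP D x α 0 Γ = 3 * dt6 Γ (KK D x Γ) := by
  have c1 : ∀ a : V ℝ, cx 0 a = 0 := fun a => by funext i; fin_cases i <;> simp [cx]
  have c2 : ∀ a : V ℝ, cx a 0 = 0 := fun a => by funext i; fin_cases i <;> simp [cx]
  have c3 : ∀ a : V6 ℝ, cx6 0 a = 0 := fun a => Prod.ext (c1 _) (c1 _)
  have c4 : ∀ a : V6 ℝ, cx6 a 0 = 0 := fun a => Prod.ext (c2 _) (c2 _)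
  have d1 : ∀ a : V6 ℝ, dt6 0 a = 0 := fun a => by simp [dt6, dt]
  have d2 : ∀ a : V6 ℝ, dt6 a 0 = 0 := fun a => by simp [dt6, dt]
  have k0 : KK D x 0 = 0 := by
    rw [KK_eq, map_zero, map_zero, add_zero]
  have t0 : ∀ ζ, TT D ζ 0 = 0 := fun ζ => by rw [← TD_apply, map_zero]
  have t1 : ∀ v, TT D 0 v = 0 := fun v => by rw [← TD_apply, map_zero]; rfl
  have g0 : ∀ a, gT (TT D) a 0 = 0 := fun a => by
    funext i; fin_cases i <;> simp [gT, t0, d2]
  have s1 : sS (KK D x) (TT D) x α 0 = 0 := by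
    rw [sS, g0, c2, k0, c4, c3]
    simp
  have s2 : sS (KK D x) (TT D) x 0 0 = 0 := by
    rw [sS, g0, c2, k0, c4]
    simp
  have z1 : (0 : V6 ℝ).1 = 0 := rfl
  rw [PP, PPg, s1, s2, k0]
  simp only [z1, t0, t1, c1, c2, c3, c4, d1, d2, k0, add_zero, sub_zero, mul_zero, zero_add]

theorem K_nonneg {D : Dat ℝ} (hD : Good D) (x : V ℝ) (hx : dt x x = 1) (a : V6 ℝ) :
    0 ≤ dt6 a (KK D x a) := by
  by_cases h : a = 0
  · rw [h]; simp [dt6, dt]
  · exact (hD.pos x a hx h).le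

theorem PP_nonneg {D : Dat ℝ} (hD : Good D) (x : V ℝ) (α β Γ : V6 ℝ)
    (hx : dt x x = 1) (hα : dt x α.1 = 0) (hβ : dt x β.1 = 0) (hΓ : dt x Γ.1 = 0) :
    0 ≤ PP D x α β Γ := by
  by_cases h : LI α β
  · exact (pos_LI hD.on hD.gl x α β Γ hx hα hβ hΓ h).le
  · simp only [LI, not_forall] at h
    obtain ⟨r, s, h0, h1⟩ := h
    by_cases hs : s = 0
    · have hr : r ≠ 0 := fun hr => h1 ⟨hr, hs⟩
      have ha : α = 0 := by
        rw [hs, zero_smul, add_zero] at h0
        exact (smul_eq_zero.1 h0).resolve_left hr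
      have h2 := hD.gl x β 0 (-Γ) 0 1 1 0
      have e1 : (0 : ℝ) • β + (1 : ℝ) • (0 : V6 ℝ) = 0 := by simp
      have e2 : (1 : ℝ) • β + (0 : ℝ) • (0 : V6 ℝ) = β := by simp
      have e3 : ((0 : ℝ) * 0 - 1 * 1) • (-Γ) = Γ := by
        rw [show ((0 : ℝ) * 0 - 1 * 1) = -1 by norm_num]; simp
      rw [e1, e2, e3] at h2
      rw [ha, h2, PP_zero]
      have := K_nonneg hD x hx (-Γ)
      nlinarith
    · obtain ⟨t, ht⟩ : ∃ t, t = -(r / s) := ⟨_, rfl⟩
      have hb : β = t • α := by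
        have h2 : s • β = -(r • α) := by rw [eq_neg_iff_add_eq_zero, add_comm]; exact h0
        have h3 : β = s⁻¹ • (s • β) := by rw [smul_smul, inv_mul_cancel₀ hs, one_smul]
        rw [h3, h2, ht, smul_neg, smul_smul, neg_smul, div_eq_inv_mul]
      have h2 := hD.gl x α 0 Γ 1 0 t 1
      have e1 : (1 : ℝ) • α + (0 : ℝ) • (0 : V6 ℝ) = α := by simp
      have e2 : t • α + (1 : ℝ) • (0 : V6 ℝ) = t • α := by simp
      have e3 : ((1 : ℝ) * 1 - 0 * t) • Γ = Γ := by simp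
      rw [e1, e2, e3] at h2
      rw [hb, h2, PP_zero]
      have := K_nonneg hD x hx Γ
      nlinarith

theorem perp_J (x a : V ℝ) : dt x (cx x a) = 0 := by
  simp [dt, cx]; ring

theorem perp_G (x a b u v g : V ℝ) :
    dt x (cx x g + (cx (cx x a) v - cx (cx x b) u) - (cx (cx u x) b - cx (cx v x) a)) = 0 := by
  simp [dt, cx]; ring

/-- the cometric on `S² × ℝ³` -/
def WED (D : Dat ℝ) : R3 × R3 → (R3 × R3) →L[ℝ] (R3 × R3) := WE (K0D D) (TD D)

theorem WED_apply (D : Dat ℝ) (z a : R3 × R3) :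
    WED D z a = YE.E (KK D (pj z) (YE.J z a)) z + Pi2 a := rfl

theorem B_WED (D : Dat ℝ) (z a b : R3 × R3) :
    XE.B a (WED D z b) = dt6 (YE.J z a) (KK D (pj z) (YE.J z b)) + ⟪a.2, b.2⟫ := by
  rw [WED_apply, map_add, ← YE.dt6_J, Pi2_apply, XE_B, inner_zero_right, zero_add]

theorem dt_cx_self {x a : V ℝ} (hx : dt x x = 1) (ha : dt x a = 0) :
    dt (cx x a) (cx x a) = dt a a := by
  have h : dt (cx x a) (cx x a) = dt x x * dt a a - dt x a * dt x a := by
    simp [dt, cx]; ring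
  rw [h, hx, ha]; ring

theorem dt_self_eq_zero {a : V ℝ} (h : dt a a = 0) : a = 0 := by
  simp only [dt] at h
  have s0 := mul_self_nonneg (a 0)
  have s1 := mul_self_nonneg (a 1)
  have s2 := mul_self_nonneg (a 2)
  have q0 : a 0 = 0 := mul_self_eq_zero.1 (by linarith)
  have q1 : a 1 = 0 := mul_self_eq_zero.1 (by linarith)
  have q2 : a 2 = 0 := mul_self_eq_zero.1 (by linarith)
  funext i
  fin_cases i
  · exact q0
  · exact q1
  · exact q2

theorem tan_perp {p : S2 × R3} {a : R3 × R3} (ha : XE.P (XE.j p) a = a) :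
    dt (p.1 : R3).ofLp a.1.ofLp = 0 := by
  rw [XE_P] at ha
  have h := congrArg Prod.fst ha
  simp only [XE_j, sub_eq_self] at h
  have h2 := congrArg (fun v => ⟪(p.1 : R3), v⟫) h
  simp only [real_inner_smul_right, inner_self_sph, mul_one, inner_zero_right] at h2
  rw [← inner_R3]; exact h2

theorem comE {D : Dat ℝ} (hD : Good D) : XE.Com (WED D) where
  smooth := (YE.smooth_W (LA.smooth_Ka _ _)).add contDiff_const
  symm z a b := by
    rw [XE.Bsymm, B_WED, B_WED]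
    have h := kk (K0D D) (TD D) (K0D_symm hD.symW hD.symQ) (TD_symm D) z (YE.J z b) (YE.J z a)
    have h' : dt6 (YE.J z b) (KK D (pj z) (YE.J z a)) = dt6 (YE.J z a) (KK D (pj z) (YE.J z b)) := h
    rw [h', real_inner_comm]
  tan p a := by
    rw [WED_apply, map_add, YE.tan]
    congr 1
    rw [XE_P, Pi2_apply]
    refine Prod.ext ?_ rfl
    simp
  pos p a ha hne := by
    rw [B_WED]
    have h1 := K_nonneg hD (pj (XE.j p)) (dt_unit p.1) (YE.J (XE.j p) a)
    have h2 : 0 ≤ ⟪a.2, a.2⟫ := real_inner_self_nonneg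
    by_cases h3 : a.2 = 0
    · have h4 : YE.J (XE.j p) a ≠ 0 := by
        intro h5
        apply hne
        refine Prod.ext ?_ h3
        rw [YE_J] at h5
        have h6 : cx (p.1 : R3).ofLp a.1.ofLp = 0 := congrArg Prod.fst h5
        have h7 := dt_cx_self (dt_unit p.1) (tan_perp ha)
        rw [h6] at h7
        have h8 : a.1.ofLp = 0 := dt_self_eq_zero (by rw [← h7]; simp [dt])
        ext i
        exact congrFun h8 i
      have h5 := hD.pos (pj (XE.j p)) (YE.J (XE.j p) a) (dt_unit p.1) h4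
      linarith
    · have h4 : 0 < ⟪a.2, a.2⟫ := real_inner_self_pos.2 h3
      linarith

/-- **Nonnegativity of the curvature expression on `S² × ℝ³`.** -/
theorem Pexp_nonneg {D : Dat ℝ} (hD : Good D) (p : S2 × R3) (a b γ : R3 × R3) :
    0 ≤ XE.Pexp (WED D) (XE.j p) a b γ := by
  have h := Pexp_WE (K0D D) (TD D) (K0D_symm hD.symW hD.symQ) (TD_symm D) (XE.j p) a b γ
  rw [YE.PPa_eq (K0D D) pj pj_YE (TD D)] at h
  have h2 : 0 ≤ 4 * XE.Pexp (WED D) (XE.j p) a b γ := by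
    rw [WED, h]
    refine add_nonneg ?_ ?_
    · refine PP_nonneg hD (pj (XE.j p)) _ _ _ (dt_unit p.1) ?_ ?_ ?_
      · rw [YE_J]; exact perp_J _ _
      · rw [YE_J]; exact perp_J _ _
      · have e : ∀ u v w : V6 ℝ, ((u + (v - w) : V6 ℝ)).1 = u.1 + (v.1 - w.1) := fun _ _ _ => rfl
        simp only [YE_J, YE_E]
        rw [Prod.fst_sub, Prod.smul_fst, smul_zero, sub_zero]
        exact perp_G _ _ _ _ _ _
    · have : ∀ w : V ℝ, 0 ≤ dt w w := fun w => by
        simp only [dt]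
        nlinarith [mul_self_nonneg (w 0), mul_self_nonneg (w 1), mul_self_nonneg (w 2)]
      have h3 := this (γ.2.ofLp - (cx (LA.Ka (K0D D) ((TD D).comp pj) (XE.j p)
        (YE.J (XE.j p) b)).2 a.2.ofLp - cx (LA.Ka (K0D D) ((TD D).comp pj) (XE.j p)
        (YE.J (XE.j p) a)).2 b.2.ofLp))
      linarith
  linarith

end Pool.Agent.Y490.WH
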