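import Pool.Agent.Y490.WH.Convex

/-!
The zero section `S² × {0}` is totally geodesic; its normal bundle.
-/

open Bundle Manifold ContDiff ContinuousLinearMap Filter VectorField Metric Set MeasureTheory
open scoped Topology RealInnerProductSpace ENNReal

set_option autoImplicit false
set_option synthInstance.maxHeartbeats 400000
set_option maxHeartbeats 4000000
set_option linter.unusedSectionVars false

noncomputable section

namespace Pool.Agent.Y490.WH

open Pool.Agent.H821R2 Pool.Agent.H821R3 H907H Pool.Agent.H893R5.HO HopfPP Pool.Agent.H878R5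

section general

variable {E : Type*} [NormedAddCommGroup E] [NormedSpace ℝ E]
  {H : Type*} [TopologicalSpace H] {I : ModelWithCorners ℝ E H}
  {M : Type*} [TopologicalSpace M] [ChartedSpace H M]
  {E' : Type*} [NormedAddCommGroup E'] [NormedSpace ℝ E']
  {H' : Type*} [TopologicalSpace H'] {I' : ModelWithCorners ℝ E' H'}
  {N : Type*} [TopologicalSpace N] [ChartedSpace H' N]

/-- a smooth map with a smooth left inverse is a smooth embedding -/
theorem SmoothEmb.of_leftInverse {f : N → M} {ρ : M → N} (hf : ContMDiff I' I ∞ f)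
    (hρ : ContMDiff I I' ∞ ρ) (h : ∀ x, ρ (f x) = x) : SmoothEmb I' I f where
  smooth := hf
  immersion q := by
    have h1 : mfderiv I' I' (ρ ∘ f) q = (mfderiv I I' ρ (f q)).comp (mfderiv I' I f q) :=
      mfderiv_comp q (hρ.mdifferentiableAt (by simp)) (hf.mdifferentiableAt (by simp))
    have h2 : ρ ∘ f = id := funext h
    rw [h2, mfderiv_id] at h1
    intro u v huv
    have h3 := congrArg (fun L : TangentSpace I' q →L[ℝ] TangentSpace I' q => L u) h1
    have h4 := congrArg (fun L : TangentSpace I' q →L[ℝ] TangentSpace I' q => L v) h1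
    have h5 : u = mfderiv I I' ρ (f q) (mfderiv I' I f q u) := h3
    have h6 : v = mfderiv I I' ρ (f q) (mfderiv I' I f q v) := h4
    rw [h5, h6, huv]
  embedding := Topology.IsEmbedding.of_leftInverse h hρ.continuous hf.continuous

end general

variable {D : Dat ℝ}
  {g : ContMDiffRiemannianMetric ((𝓡 2).prod (𝓡 3)) ∞
    (EuclideanSpace ℝ (Fin 2) × EuclideanSpace ℝ (Fin 3))
    (fun x : S2 × R3 => TangentSpace ((𝓡 2).prod (𝓡 3)) x)}
  {cov : CovariantDerivative ((𝓡 2).prod (𝓡 3))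
    (EuclideanSpace ℝ (Fin 2) × EuclideanSpace ℝ (Fin 3))
    (TangentSpace ((𝓡 2).prod (𝓡 3)) : S2 × R3 → Type _)}

theorem smooth_i0 : ContMDiff (𝓡 2) ((𝓡 2).prod (𝓡 3)) ∞ i0 :=
  contMDiff_id.prodMk contMDiff_const

theorem emb_i0 : SmoothEmb (𝓡 2) ((𝓡 2).prod (𝓡 3)) i0 :=
  SmoothEmb.of_leftInverse smooth_i0 contMDiff_fst fun _ => rfl

theorem mfderiv_i0 (x : S2) (u : TangentSpace (𝓡 2) x) :
    mfderiv (𝓡 2) ((𝓡 2).prod (𝓡 3)) i0 x u =
      ((u : EuclideanSpace ℝ (Fin 2)), (0 : EuclideanSpace ℝ (Fin 3))) := by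
  have h : mfderiv (𝓡 2) ((𝓡 2).prod (𝓡 3)) (fun x : S2 => ((x, 0) : S2 × R3)) x =
    ContinuousLinearMap.inl ℝ (TangentSpace (𝓡 2) x) (TangentSpace (𝓡 3) (0 : R3)) :=
    mfderiv_prod_left
  exact congrArg (fun L : EuclideanSpace ℝ (Fin 2) →L[ℝ]
    EuclideanSpace ℝ (Fin 2) × EuclideanSpace ℝ (Fin 3) => L u) h

theorem mem_range_i0 (x : S2) (v : TangentSpace ((𝓡 2).prod (𝓡 3)) (i0 x)) :
    v ∈ range (mfderiv (𝓡 2) ((𝓡 2).prod (𝓡 3)) i0 x) ↔ (XE.d (i0 x) v).2 = 0 := by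
  rw [XE_d]
  constructor
  · rintro ⟨u, rfl⟩
    rw [mfderiv_i0]
  · intro h
    exact ⟨(v.1 : EuclideanSpace ℝ (Fin 2)), (mfderiv_i0 x (v.1 : EuclideanSpace ℝ (Fin 2))).trans
      (Prod.ext rfl h.symm)⟩

/-- a function vanishing on the zero section has vanishing tangential derivatives -/
theorem der_vanish {ψ : S2 × R3 → ℝ} (hψ : Sm ((𝓡 2).prod (𝓡 3)) ψ) (h0 : ∀ x, ψ (i0 x) = 0)
    (x : S2) (v : TangentSpace ((𝓡 2).prod (𝓡 3)) (i0 x))
    (hv : v ∈ range (mfderiv (𝓡 2) ((𝓡 2).prod (𝓡 3)) i0 x)) :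
    mvfderiv ((𝓡 2).prod (𝓡 3)) ψ (i0 x) v = 0 := by
  obtain ⟨u, rfl⟩ := hv
  have h1 := mfderiv_comp x (hψ.mdiff (i0 x)) (smooth_i0.mdifferentiableAt (x := x) (by simp))
  have h2 : ψ ∘ i0 = fun _ => 0 := funext h0
  rw [h2, mfderiv_const] at h1
  have h3 := congrArg (fun L : EuclideanSpace ℝ (Fin 2) →L[ℝ] ℝ => L u) h1
  exact h3.symm

/-- the Hessian of `⟨b, w⟩` vanishes on the zero section -/
theorem hess_lin (hD : Good D) (hg : XE.Dual g (WED D)) (h : IsLeviCivita g cov) (b : R3)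
    {N : Π p : S2 × R3, TangentSpace ((𝓡 2).prod (𝓡 3)) p} (hN : SmV N)
    (hNd : ∀ p, XE.d p (N p) = WED D (XE.j p) ((0, b) : R3 × R3)) (x : S2)
    (v : TangentSpace ((𝓡 2).prod (𝓡 3)) (i0 x)) (hv : (XE.d (i0 x) v).2 = 0) :
    g.inner (i0 x) (cov N (i0 x) v) v = 0 := by
  obtain ⟨a, -, haW⟩ := Emb.exists_covec (comE hD) hg (i0 x) v
  have ha2 : a.2 = 0 := by
    have h1 := congrArg Prod.snd haW
    rw [W_snd, hv] at h1
    have h2 : cr3 (KK D (pj (XE.j (i0 x))) (YE.J (XE.j (i0 x)) a)).2 (XE.j (i0 x)).2 = 0 := by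
      ext i; fin_cases i <;> simp [cr3, cx, XE_j, i0]
    rw [h2, zero_add] at h1
    exact h1
  obtain ⟨Z, hZ, hZd⟩ := Emb.exists_X (comE hD) a
  have hZp : Z (i0 x) = v := XE.d_inj (i0 x) (by rw [hZd, haW])
  have hNg := Emb.grad_X hg hNd
  rw [← hZp, hess_grad h hN hZ hNg (i0 x), ← hNg (i0 x)]
  have e1 := two_nabla_self h hZ (XE.smooth_comp (XE.B a).contDiff) (Emb.grad_X hg hZd) (i0 x)
    (N (i0 x))
  have w0 : WED D (XE.j (i0 x)) ((0, b) : R3 × R3) = (0, b) := by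
    apply WED_vert
    funext i; fin_cases i <;> simp [cx, XE_j, i0]
  rw [Emb.gi_X hg hZd hZd, XE.d_comp (i0 x)
    ((Emb.smoothFF (comE hD) a a).differentiable (by simp) _), hNd, w0, dFF hD,
    g.symm (i0 x) _ (N (i0 x))] at e1
  have g0 : gv (K0D D) (TD D) a a (XE.j (i0 x)) = 0 := by
    rw [gv, ha2]
    funext i; fin_cases i <;> simp [cx]
  have z0 : dt b.ofLp (0 : V ℝ) = 0 := by simp [dt]
  rw [g0, z0] at e1
  have e2 : g.inner (i0 x) (N (i0 x)) (cov Z (i0 x) (Z (i0 x))) = 0 := by linarith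
  rw [e2, sub_zero]
  have d1 : der Z (fun q => XE.B ((0, b) : R3 × R3) (XE.j q)) =
      fun q => XE.FF (WED D) ((0, b) : R3 × R3) a (XE.j q) := by
    rw [Emb.der_comp hZd (XE.B ((0, b) : R3 × R3)).contDiff]
    funext q
    rw [Emb.Dir, ContinuousLinearMap.fderiv]
    rfl
  rw [d1, congrFun (Emb.der_comp hZd (Emb.smoothFF (comE hD) ((0, b) : R3 × R3) a)) (i0 x),
    Emb.Dir, WED, fderiv_FF, YE.fderiv_F]
  change YE.F1 (K0D D) ((TD D).comp pj) ((0, b) : R3 × R3) a (XE.j (i0 x))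
    (WED D (XE.j (i0 x)) a) = 0
  rw [haW, LA.F1]
  have j1 : YE.J (XE.d (i0 x) v) ((0, b) : R3 × R3) = 0 := by
    rw [YE_J, hv]
    refine Prod.ext ?_ ?_
    · funext i; fin_cases i <;> simp [cx]
    · funext i; fin_cases i <;> simp [cx]
  have j2 : YE.J (XE.j (i0 x)) ((0, b) : R3 × R3) = 0 := by
    rw [YE_J]
    refine Prod.ext ?_ ?_
    · funext i; fin_cases i <;> simp [cx]
    · funext i; fin_cases i <;> simp [cx, XE_j, i0]
  have zl : ∀ q : V6 ℝ, dt6 0 q = 0 := fun q => by simp [dt6, dt]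
  rw [j1, j2, zl, zl, zl]
  simp

/-- **The zero section is totally geodesic.** -/
theorem totallyGeodesic (hD : Good D) (hg : XE.Dual g (WED D)) :
    TotallyGeodesic g (𝓡 2) i0 := by
  intro cov h X Y hX hY hXt hYt x
  rw [mem_range_i0]
  have key : ∀ b : R3, ⟪b, (XE.d (i0 x) (cov Y (i0 x) (X (i0 x)))).2⟫ = 0 := by
    intro b
    obtain ⟨N, hN, hNd⟩ := Emb.exists_X (comE hD) ((0, b) : R3 × R3)
    have hNg := Emb.grad_X hg hNd
    have hin : ∀ (p : S2 × R3) (v : TangentSpace ((𝓡 2).prod (𝓡 3)) p),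
        g.inner p (N p) v = ⟪b, (XE.d p v).2⟫ := fun p v => by
      rw [hg p _ (N p) (hNd p) v, XE_B, inner_zero_left, zero_add]
    have e1 := h.metric hX hN hY (i0 x)
    have hψ : Sm ((𝓡 2).prod (𝓡 3)) (gi g N Y) := gi_smooth hN hY
    have e2 : mvfderiv ((𝓡 2).prod (𝓡 3)) (gi g N Y) (i0 x) (X (i0 x)) = 0 := by
      refine der_vanish hψ (fun y => ?_) x (X (i0 x)) (hXt x)
      have h1 := (mem_range_i0 y (Y (i0 y))).1 (hYt y)
      rw [gi_apply, hin, h1, inner_zero_right]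
    have e3 : mvfderiv ((𝓡 2).prod (𝓡 3)) (gi g N Y) (i0 x) (X (i0 x)) =
      g.inner (i0 x) (cov N (i0 x) (X (i0 x))) (Y (i0 x)) +
        g.inner (i0 x) (N (i0 x)) (cov Y (i0 x) (X (i0 x))) := e1
    rw [e2, hin] at e3
    -- polarization
    have hx2 := (mem_range_i0 x (X (i0 x))).1 (hXt x)
    have hy2 := (mem_range_i0 x (Y (i0 x))).1 (hYt x)
    have p1 := hess_lin hD hg h b hN hNd x (X (i0 x)) hx2
    have p2 := hess_lin hD hg h b hN hNd x (Y (i0 x)) hy2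
    have p3 := hess_lin hD hg h b hN hNd x (X (i0 x) + Y (i0 x)) (by
      rw [map_add, Prod.snd_add, hx2, hy2, add_zero])
    have p4 := hess_symm h hN (XE.smooth_comp (XE.B ((0, b) : R3 × R3)).contDiff) hNg hX hY (i0 x)
    have p5 : g.inner (i0 x) (cov N (i0 x) (X (i0 x) + Y (i0 x))) (X (i0 x) + Y (i0 x)) =
        g.inner (i0 x) (cov N (i0 x) (X (i0 x))) (X (i0 x)) +
        g.inner (i0 x) (cov N (i0 x) (Y (i0 x))) (X (i0 x)) +
        (g.inner (i0 x) (cov N (i0 x) (X (i0 x))) (Y (i0 x)) +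
        g.inner (i0 x) (cov N (i0 x) (Y (i0 x))) (Y (i0 x))) := by
      rw [map_add, map_add, map_add, add_apply, add_apply]
    rw [p5, p1, p2] at p3
    linarith
  have h2 := key (XE.d (i0 x) (cov Y (i0 x) (X (i0 x)))).2
  exact inner_self_eq_zero.1 h2

end Pool.Agent.Y490.WH
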