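import Pool.Agent.Y490.WH.Pos

/-!
The metrics on `S² × S²` with cometric `Q_x(L, M) + c |M|²`, and the metric on `S² × ℝ³`.
-/

open Bundle Manifold ContDiff ContinuousLinearMap Filter VectorField Metric
open scoped Topology RealInnerProductSpace

set_option autoImplicit false
set_option synthInstance.maxHeartbeats 400000
set_option maxHeartbeats 4000000
set_option linter.unusedSectionVars false

noncomputable section

namespace Pool.Agent.Y490.WH

open Pool.Agent.H821R2 Pool.Agent.H821R3 H907H Pool.Agent.H893R5.HO HopfPP Pool.Agent.H878R5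

section general

variable {E : Type*} [NormedAddCommGroup E] [NormedSpace ℝ E] [FiniteDimensional ℝ E]
  {H : Type*} [TopologicalSpace H] {I : ModelWithCorners ℝ E H}
  {M : Type*} [TopologicalSpace M] [ChartedSpace H M] [IsManifold I ∞ M]
  {A : Type*} [NormedAddCommGroup A] [NormedSpace ℝ A] [FiniteDimensional ℝ A]
  {X : Emb I M A} {W : A → A →L[ℝ] A}
  {g : ContMDiffRiemannianMetric I ∞ E (fun x : M => TangentSpace I x)}
  [T2Space M] [SigmaCompactSpace M] [Nontrivial E]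
  {cov : CovariantDerivative I E (TangentSpace I : M → Type _)} {R : CurvField I M}

theorem sec_covec (hW : X.Com W) (hg : X.Dual g W) (h : IsLeviCivita g cov)
    (hR : IsRiemannTensor cov R) (p : M) (u v : TangentSpace I p) :
    ∃ a b γ : A, X.P (X.j p) a = a ∧ X.P (X.j p) b = b ∧ X.P (X.j p) γ = γ ∧
      W (X.j p) a = X.d p u ∧ W (X.j p) b = X.d p v ∧
      sec g R p u v = X.Pexp W (X.j p) a b γ := by
  obtain ⟨a, ha1, ha⟩ := Emb.exists_covec hW hg p u
  obtain ⟨b, hb1, hb⟩ := Emb.exists_covec hW hg p v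
  obtain ⟨γ, h1, -, h2⟩ := Emb.curv_eq hW hg h hR p a b u v ha.symm hb.symm
  exact ⟨a, b, γ, ha1, hb1, h1, ha, hb, h2⟩

end general

/-- projection to the second factor -/
def P6 : V6 ℝ →L[ℝ] V6 ℝ :=
  (ContinuousLinearMap.inr ℝ (V ℝ) (V ℝ)).comp (ContinuousLinearMap.snd ℝ (V ℝ) (V ℝ))

theorem P6_apply (a : V6 ℝ) : P6 a = (0, a.2) := rfl

/-- the constant part of the momentum matrix -/
def Kc (D : Dat ℝ) (c : ℝ) : V6 ℝ →L[ℝ] V6 ℝ := K0D D + c • P6

/-- the cometric on `S² × S²` -/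
def WSD (D : Dat ℝ) (c : ℝ) : R3 × R3 → (R3 × R3) →L[ℝ] (R3 × R3) :=
  YS.W (LA.Ka (Kc D c) ((TD D).comp pj))

theorem Ka_Kc (D : Dat ℝ) (c : ℝ) (z : R3 × R3) (v : V6 ℝ) :
    LA.Ka (Kc D c) ((TD D).comp pj) z v = KK D (pj z) v + c • ((0, v.2) : V6 ℝ) := by
  have h : LA.Ka (Kc D c) ((TD D).comp pj) z v = (K0D D v + c • ((0, v.2) : V6 ℝ)) +
    TD D (pj z) v := rfl
  rw [h, KK_eq]
  abel

theorem WSD_apply (D : Dat ℝ) (c : ℝ) (z a : R3 × R3) :
    WSD D c z a = YS.E (KK D (pj z) (YS.J z a) + c • ((0, (YS.J z a).2) : V6 ℝ)) z := by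
  rw [← Ka_Kc]; rfl

theorem Kc_symm {D : Dat ℝ} (hW : SymM D.W) (hQ : SymM D.Q) (c : ℝ) (u v : V6 ℝ) :
    dt6 (Kc D c u) v = dt6 u (Kc D c v) := by
  have e : ∀ w, Kc D c w = K0D D w + c • ((0, w.2) : V6 ℝ) := fun w => rfl
  rw [e, e, dt6_add_left, dt6_add_right, K0D_symm hW hQ, dt6_smul_left, dt6_smul_right]
  congr 2
  simp [dt6, dt]

theorem tan_perpS1 {p : SS R3 R3} {a : R3 × R3} (ha : XS.P (XS.j p) a = a) :
    dt (p.1 : R3).ofLp a.1.ofLp = 0 := by
  rw [XS_P] at ha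
  have h := congrArg Prod.fst ha
  simp only [XS_j, sub_eq_self] at h
  have h2 := congrArg (fun v => ⟪(p.1 : R3), v⟫) h
  simp only [real_inner_smul_right, inner_self_sph, mul_one, inner_zero_right] at h2
  rw [← inner_R3]; exact h2

theorem tan_perpS2 {p : SS R3 R3} {a : R3 × R3} (ha : XS.P (XS.j p) a = a) :
    dt (p.2 : R3).ofLp a.2.ofLp = 0 := by
  rw [XS_P] at ha
  have h := congrArg Prod.snd ha
  simp only [XS_j, sub_eq_self] at h
  have h2 := congrArg (fun v => ⟪(p.2 : R3), v⟫) h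
  simp only [real_inner_smul_right, inner_self_sph, mul_one, inner_zero_right] at h2
  rw [← inner_R3]; exact h2

theorem cx_inj (x : S2) {a : R3} (ha : dt (x : R3).ofLp a.ofLp = 0)
    (h : cx (x : R3).ofLp a.ofLp = 0) : a = 0 := by
  have h7 := dt_cx_self (dt_unit x) ha
  rw [h] at h7
  have h8 : a.ofLp = 0 := dt_self_eq_zero (by rw [← h7]; simp [dt])
  ext i
  exact congrFun h8 i

theorem JS_inj {p : SS R3 R3} {a : R3 × R3} (ha : XS.P (XS.j p) a = a)
    (h : YS.J (XS.j p) a = 0) : a = 0 := by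
  rw [YS_J] at h
  exact Prod.ext (cx_inj p.1 (tan_perpS1 ha) (congrArg Prod.fst h))
    (cx_inj p.2 (tan_perpS2 ha) (congrArg Prod.snd h))

theorem dt_nonneg (w : V ℝ) : 0 ≤ dt w w := by
  simp only [dt]
  nlinarith [mul_self_nonneg (w 0), mul_self_nonneg (w 1), mul_self_nonneg (w 2)]

theorem comS {D : Dat ℝ} (hD : Good D) {c : ℝ} (hc : 0 ≤ c) : XS.Com (WSD D c) where
  smooth := YS.smooth_W (LA.smooth_Ka _ _)
  symm z a b := by
    rw [XS.Bsymm, WSD, YS.B_W, YS.B_W]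
    exact LA.Ka_symm' (Kc D c) ((TD D).comp pj) (Kc_symm hD.symW hD.symQ c)
      (fun ζ u v => TD_symm D (pj ζ) u v) z _ _
  tan p a := YS.tan _ p
  pos p a ha hne := by
    rw [WSD, YS.B_W, Ka_Kc, dt6_add_right, dt6_smul_right]
    have h1 := hD.pos (pj (XS.j p)) (YS.J (XS.j p) a) (dt_unit p.1) fun h => hne (JS_inj ha h)
    have h2 : dt6 (YS.J (XS.j p) a) ((0, (YS.J (XS.j p) a).2) : V6 ℝ) =
        dt (YS.J (XS.j p) a).2 (YS.J (XS.j p) a).2 := by
      simp [dt6, dt]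
    rw [h2]
    have h3 := mul_nonneg hc (dt_nonneg (YS.J (XS.j p) a).2)
    linarith

/-- **Positivity of the curvature expression on `S² × S²`.** -/
theorem PexpS_pos {D : Dat ℝ} (hD : Good D) {c : ℝ} (hc : 0 ≤ c) (p : SS R3 R3)
    (a b γ : R3 × R3) (ha : XS.P (XS.j p) a = a) (hb : XS.P (XS.j p) b = b)
    (hab : ∀ r s : ℝ, r • a + s • b = 0 → r = 0 ∧ s = 0) :
    0 < XS.Pexp (WSD D c) (XS.j p) a b γ := by
  have h := YS.Pexp_eq (Kc D c) ((TD D).comp pj) (Kc_symm hD.symW hD.symQ c)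
    (fun ζ u v => TD_symm D (pj ζ) u v) (XS.j p) a b γ
  rw [YS.PPa_eq (Kc D c) pj pj_YS (TD D)] at h
  simp only [Ka_Kc] at h
  have hka : ∀ u v, KK D (pj (XS.j p)) (u + v) = KK D (pj (XS.j p)) u + KK D (pj (XS.j p)) v :=
    fun u v => by rw [KK_eq, KK_eq, KK_eq, map_add, map_add]; abel
  have hks : ∀ (r : ℝ) u, KK D (pj (XS.j p)) (r • u) = r • KK D (pj (XS.j p)) u :=
    fun r u => by rw [KK_eq, KK_eq, map_smul, map_smul, smul_add]
  have hkk : ∀ u v, dt6 u (KK D (pj (XS.j p)) v) = dt6 v (KK D (pj (XS.j p)) u) :=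
    fun u v => kk (K0D D) (TD D) (K0D_symm hD.symW hD.symQ) (TD_symm D) (XS.j p) u v
  have h1 := cheeger (K := KK D (pj (XS.j p))) (T := TT D) hka hks hkk (pj (XS.j p))
    (YS.J (XS.j p) a) (YS.J (XS.j p) b)
  have h' : (fun ζ v => TD D ζ v) = TT D := rfl
  rw [h', h1] at h
  have hpos : 0 < 4 * XS.Pexp (WSD D c) (XS.j p) a b γ := by
    rw [WSD, h]
    refine add_pos_of_pos_of_nonneg (add_pos_of_pos_of_nonneg ?_ ?_) ?_
    · refine pos_LI hD.on hD.gl _ _ _ _ (dt_unit p.1) ?_ ?_ ?_ ?_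
      · rw [YS_J]; exact perp_J _ _
      · rw [YS_J]; exact perp_J _ _
      · simp only [YS_J, YS_E]
        rw [Prod.fst_sub, Prod.smul_fst, smul_zero, sub_zero]
        have e0 : ∀ (u : V6 ℝ) (w : V ℝ), (u + c • ((0, w) : V6 ℝ)).1 = u.1 := fun u w => by
          rw [Prod.fst_add, Prod.smul_fst, smul_zero, add_zero]
        have e := perp_G (pj (XS.j p)) a.1.ofLp b.1.ofLp
          (KK D (pj (XS.j p)) (cx (XS.j p).1.ofLp a.1.ofLp, cx (XS.j p).2.ofLp a.2.ofLp)).1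
          (KK D (pj (XS.j p)) (cx (XS.j p).1.ofLp b.1.ofLp, cx (XS.j p).2.ofLp b.2.ofLp)).1
          γ.1.ofLp
        rw [← e]
        simp only [Prod.fst_add, Prod.fst_sub, cx6, e0]
        rfl
      · intro r s hrs
        apply hab r s
        apply JS_inj (p := p)
        · rw [map_add, map_smul, map_smul, ha, hb]
        · rw [map_add, map_smul, map_smul, hrs]
    · exact mul_nonneg (by linarith) (dt_nonneg _)
    · exact mul_nonneg (by positivity) (dt_nonneg _)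
  linarith

instance nonTriv22 : Nontrivial (EuclideanSpace ℝ (Fin 2) × EuclideanSpace ℝ (Fin 2)) :=
  inferInstance

instance nonTriv23 : Nontrivial (EuclideanSpace ℝ (Fin 2) × EuclideanSpace ℝ (Fin 3)) :=
  inferInstance

/-- the metrics on `S² × S²` are positively curved -/
theorem positiveS {D : Dat ℝ} (hD : Good D) {c : ℝ} (hc : 0 ≤ c)
    {g : ContMDiffRiemannianMetric ((𝓡 2).prod (𝓡 2)) ∞
      (EuclideanSpace ℝ (Fin 2) × EuclideanSpace ℝ (Fin 2))
      (fun x : SS R3 R3 => TangentSpace ((𝓡 2).prod (𝓡 2)) x)} (hg : XS.Dual g (WSD D c)) :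
    PositivelyCurved g := by
  have hC := comS hD hc
  obtain ⟨cov, R, h, hR⟩ := Emb.exists_cov hC hg
  refine ⟨⟨cov, R, h, hR⟩, ?_⟩
  intro cov R h hR p u v huv
  obtain ⟨a, b, γ, ha, hb, -, hu, hv, hs⟩ := sec_covec hC hg h hR p u v
  rw [hs]
  refine PexpS_pos hD hc p a b γ ha hb ?_
  intro r s hrs
  have h1 : XS.d p (r • u + s • v) = 0 := by
    rw [map_add, map_smul, map_smul, ← hu, ← hv, ← map_smul, ← map_smul, ← map_add, hrs, map_zero]
  have h2 : r • u + s • v = 0 := XS.inj p _ h1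
  obtain ⟨huu, hvv, huv⟩ := huv
  have h3 : g.inner p u (r • u + s • v) = 0 := by rw [h2, map_zero]
  have h4 : g.inner p v (r • u + s • v) = 0 := by rw [h2, map_zero]
  rw [map_add, map_smul, map_smul, huu, huv] at h3
  rw [map_add, map_smul, map_smul, hvv, g.symm p v u, huv] at h4
  simp only [smul_eq_mul, mul_one, mul_zero, add_zero, zero_add] at h3 h4
  exact ⟨h3, h4⟩

end Pool.Agent.Y490.WH
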